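import Pool.Agent.N597.NR.Heap
import Pool.Agent.H671R2.PolyAuto
import Pool.Agent.NPC.Dec
set_option autoImplicit false

/-!
# The algorithm, and its polynomial running time
-/

namespace Pool.Agent.N597.NR

open Pool.Agent.NPC

/-- A graph as an adjacency matrix. -/
abbrev Mat : Type := List (List Bool)

/-- The adjacency test. -/
def adj (Mx : Mat) (u v : ℕ) : Bool := (Mx.getD u []).getD v false

/-- The number of ones of a row. -/
def rowDeg (row : List Bool) : ℕ := (row.filter fun x => x).length

/-- The maximum degree, but at least one. -/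
def dg (Mx : Mat) : ℕ :=
  max 1 (((List.range (Mx.length + 1)).filter fun d =>
    Mx.all fun row => decide (rowDeg row ≤ d)).head?.getD 0)

/-- The number of bits of a colour. -/
def bb (Mx : Mat) : ℕ := 6 + 2 * (dg Mx).bits.length

/-- The number of rounds. -/
def Tn (n : ℕ) : ℕ := n * (2 * n + 1)

/-- Every vertex gets a list of colours: the first one is its present colour, the other ones will be
used when it is recoloured. -/
def initS (Mx : Mat) (r : List Bool) : List (List (List Bool)) :=
  (List.range Mx.length).map fun v => (List.range (Tn Mx.length + 1)).map fun j =>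
    (List.range (bb Mx)).map fun i => r.getD (pos (Tn Mx.length + 1) (bb Mx) v j i) false

/-- The present colours. -/
def cols (S : List (List (List Bool))) : List (List Bool) := S.map fun st => st.head?.getD []

/-- Pairs of vertices of equal colours. -/
def lev0 (Mx : Mat) (c : List (List Bool)) : List (ℕ × Pc) :=
  (List.range Mx.length).flatMap fun u => (List.range Mx.length).flatMap fun w =>
    if u ≠ w ∧ c.getD u [] = c.getD w [] then [(w, [(u, w)])] else []

/-- Extend two disjoint paths with equal colours by one vertex each. -/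
def ext (Mx : Mat) (c : List (List Bool)) (s : ℕ × Pc) : List (ℕ × Pc) :=
  (List.range Mx.length).flatMap fun x => (List.range Mx.length).flatMap fun y =>
    if adj Mx (s.2.head?.getD (0, 0)).1 x = true ∧ adj Mx (s.2.head?.getD (0, 0)).2 y = true ∧
      x ≠ y ∧ x ∉ verts s.2 ∧ y ∉ verts s.2 ∧ c.getD x [] = c.getD y []
    then [(s.1, (x, y) :: s.2)] else []

/-- The two paths together form a path. -/
def hitb (Mx : Mat) (s : ℕ × Pc) : Bool := adj Mx (s.2.head?.getD (0, 0)).1 s.1

/-- Give up when a list is too long. -/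
def cap (K : ℕ) (l : List (ℕ × Pc)) : List (ℕ × Pc) := if l.length ≤ K then l else []

/-- One step of the search. -/
def detStep (Mx : Mat) (c : List (List Bool)) (st : List (ℕ × Pc) × Option Pc) :
    List (ℕ × Pc) × Option Pc :=
  (cap (Mx.length * Mx.length * Mx.length) (st.1.flatMap (ext Mx c)),
    if st.2.isSome = true then st.2 else ((st.1.filter (hitb Mx)).head?).map Prod.snd)

/-- The search for a repetitively coloured path. -/
def det (Mx : Mat) (c : List (List Bool)) : Option Pc :=
  ((detStep Mx c)^[Mx.length] (lev0 Mx c, none)).2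

/-- Recolour the vertices of a piece. -/
def resample (S : List (List (List Bool))) (A : Pc) : List (List (List Bool)) :=
  S.zipIdx.map fun e => if e.2 ∈ verts A then e.1.tail else e.1

/-- One round. -/
def stepS (Mx : Mat) (S : List (List (List Bool))) : List (List (List Bool)) :=
  (det Mx (cols S)).elim S (resample S)

/-- The algorithm. Its input is the adjacency matrix of a graph and a list of random bits. -/
def alg (a : Mat × List Bool) : List ℕ :=
  (cols ((stepS a.1)^[Tn a.1.length] (initS a.1 a.2))).map valB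

/-! ### Polynomial time -/

variable {α β : Type} [TEnc α] [TEnc β]

@[fun_prop]
theorem poly_rangeLen {l : α → List β} (hl : NPC.Poly l) :
    NPC.Poly (fun a => List.range (l a).length) := (UPoly.length hl).range

@[fun_prop]
theorem poly_adj {M : α → Mat} {u v : α → ℕ} (hM : NPC.Poly M) (hu : NPC.Poly u)
    (hv : NPC.Poly v) : NPC.Poly (fun a => adj (M a) (u a) (v a)) := by
  unfold adj
  fun_prop

@[fun_prop]
theorem poly_verts {A : α → Pc} (hA : NPC.Poly A) : NPC.Poly (fun a => verts (A a)) := by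
  unfold verts
  exact NPC.Poly.append (NPC.Poly.map (F := fun _ e => Prod.fst e) hA (by fun_prop))
    (NPC.Poly.map (F := fun _ e => Prod.snd e) hA (by fun_prop))

@[fun_prop]
theorem poly_rowDeg {l : α → List Bool} (hl : NPC.Poly l) :
    NPC.Poly (fun a => rowDeg (l a)) := by
  unfold rowDeg
  exact NPC.Poly.length (NPC.Poly.filter (p := fun _ x => x) hl (by fun_prop))

@[fun_prop]
theorem poly_dg {M : α → Mat} (hM : NPC.Poly M) : NPC.Poly (fun a => dg (M a)) := by
  unfold dg
  have h1 : NPC.Poly (fun a => List.range ((M a).length + 1)) :=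
    (UPoly.add (UPoly.length hM) (UPoly.const 1)).range
  refine NPC.Poly.max (NPC.Poly.const 1) (NPC.Poly.optGetD (NPC.Poly.head?
    (NPC.Poly.filter (p := fun a d => (M a).all fun row => decide (rowDeg row ≤ d)) h1 ?_))
    (NPC.Poly.const 0))
  exact NPC.Poly.all (p := fun (p : α × ℕ) row => decide (rowDeg row ≤ p.2)) (by fun_prop)
    (by fun_prop)

theorem uPoly_bb {M : α → Mat} (hM : NPC.Poly M) : UPoly (fun a => bb (M a)) := by
  unfold bb
  refine UPoly.add (UPoly.const 6) (UPoly.mul (UPoly.const 2) (UPoly.length ?_))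
  exact NPC.Poly.natBits (poly_dg hM)

theorem uPoly_Tn {n : α → ℕ} (hn : UPoly n) : UPoly (fun a => Tn (n a)) := by
  unfold Tn
  exact UPoly.mul hn (UPoly.add (UPoly.mul (UPoly.const 2) hn) (UPoly.const 1))

theorem poly_initS {M : α → Mat} {r : α → List Bool} (hM : NPC.Poly M) (hr : NPC.Poly r) :
    NPC.Poly (fun a => initS (M a) (r a)) := by
  unfold initS
  have h2 : NPC.Poly (fun p : α × ℕ => List.range (Tn (M p.1).length + 1)) :=
    (UPoly.add (uPoly_Tn (UPoly.length (hM.comp (NPC.Poly.fst NPC.Poly.id)))) (UPoly.const 1)).range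
  have h3 : NPC.Poly (fun p : (α × ℕ) × ℕ => List.range (bb (M p.1.1))) :=
    (uPoly_bb (hM.comp (NPC.Poly.fst (NPC.Poly.fst NPC.Poly.id)))).range
  have h4 : NPC.Poly (fun p : ((α × ℕ) × ℕ) × ℕ => bb (M p.1.1.1)) :=
    (uPoly_bb (hM.comp (NPC.Poly.fst (NPC.Poly.fst (NPC.Poly.fst NPC.Poly.id))))).toPoly
  have h5 : NPC.Poly (fun p : ((α × ℕ) × ℕ) × ℕ => Tn (M p.1.1.1).length + 1) :=
    (UPoly.add (uPoly_Tn (UPoly.length (hM.comp
      (NPC.Poly.fst (NPC.Poly.fst (NPC.Poly.fst NPC.Poly.id)))))) (UPoly.const 1)).toPoly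
  refine NPC.Poly.map (F := fun a v => (List.range (Tn (M a).length + 1)).map fun j =>
    (List.range (bb (M a))).map fun i =>
      (r a).getD (pos (Tn (M a).length + 1) (bb (M a)) v j i) false) (poly_rangeLen hM) ?_
  refine NPC.Poly.map (F := fun (p : α × ℕ) j => (List.range (bb (M p.1))).map fun i =>
      (r p.1).getD (pos (Tn (M p.1).length + 1) (bb (M p.1)) p.2 j i) false) h2 ?_
  refine NPC.Poly.map (F := fun (p : (α × ℕ) × ℕ) i =>
      (r p.1.1).getD (pos (Tn (M p.1.1).length + 1) (bb (M p.1.1)) p.1.2 p.2 i) false) h3 ?_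
  unfold pos
  exact NPC.Poly.getD (by fun_prop) (NPC.Poly.add (NPC.Poly.mul (NPC.Poly.add
    (NPC.Poly.mul (by fun_prop) h5) (by fun_prop)) h4) (by fun_prop)) (NPC.Poly.const false)

@[fun_prop]
theorem poly_cols {S : α → List (List (List Bool))} (hS : NPC.Poly S) :
    NPC.Poly (fun a => cols (S a)) := by
  unfold cols
  fun_prop

@[fun_prop]
theorem poly_lev0 {M : α → Mat} {c : α → List (List Bool)} (hM : NPC.Poly M) (hc : NPC.Poly c) :
    NPC.Poly (fun a => lev0 (M a) (c a)) := by
  unfold lev0
  refine NPC.Poly.flatMap (F := fun a u => (List.range (M a).length).flatMap fun w =>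
    if u ≠ w ∧ (c a).getD u [] = (c a).getD w [] then [(w, [(u, w)])] else []) (by fun_prop) ?_
  refine NPC.Poly.flatMap (F := fun (p : α × ℕ) w =>
    if p.2 ≠ w ∧ (c p.1).getD p.2 [] = (c p.1).getD w [] then [(w, [(p.2, w)])] else [])
    (by fun_prop) ?_
  fun_prop

@[fun_prop]
theorem poly_ext {M : α → Mat} {c : α → List (List Bool)} {s : α → ℕ × Pc} (hM : NPC.Poly M)
    (hc : NPC.Poly c) (hs : NPC.Poly s) : NPC.Poly (fun a => ext (M a) (c a) (s a)) := by
  unfold ext
  refine NPC.Poly.flatMap (F := fun a x => (List.range (M a).length).flatMap fun y =>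
    if adj (M a) ((s a).2.head?.getD (0, 0)).1 x = true ∧
      adj (M a) ((s a).2.head?.getD (0, 0)).2 y = true ∧
      x ≠ y ∧ x ∉ verts (s a).2 ∧ y ∉ verts (s a).2 ∧ (c a).getD x [] = (c a).getD y []
    then [((s a).1, (x, y) :: (s a).2)] else []) (by fun_prop) ?_
  refine NPC.Poly.flatMap (F := fun (p : α × ℕ) y =>
    if adj (M p.1) ((s p.1).2.head?.getD (0, 0)).1 p.2 = true ∧
      adj (M p.1) ((s p.1).2.head?.getD (0, 0)).2 y = true ∧
      p.2 ≠ y ∧ p.2 ∉ verts (s p.1).2 ∧ y ∉ verts (s p.1).2 ∧ (c p.1).getD p.2 [] = (c p.1).getD y []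
    then [((s p.1).1, (p.2, y) :: (s p.1).2)] else []) (by fun_prop) ?_
  fun_prop

@[fun_prop]
theorem poly_hitb {M : α → Mat} {s : α → ℕ × Pc} (hM : NPC.Poly M)
    (hs : NPC.Poly s) : NPC.Poly (fun a => hitb (M a) (s a)) := by
  unfold hitb
  fun_prop

@[fun_prop]
theorem poly_cap {K : α → ℕ} {l : α → List (ℕ × Pc)} (hK : NPC.Poly K) (hl : NPC.Poly l) :
    NPC.Poly (fun a => cap (K a) (l a)) := by
  unfold cap
  fun_prop

@[fun_prop]
theorem poly_isSome {o : α → Option β} (ho : NPC.Poly o) : NPC.Poly (fun a => (o a).isSome) :=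
  NPC.Poly.isSome ho

@[fun_prop]
theorem poly_detStep {M : α → Mat} {c : α → List (List Bool)}
    {st : α → List (ℕ × Pc) × Option Pc} (hM : NPC.Poly M) (hc : NPC.Poly c)
    (hst : NPC.Poly st) : NPC.Poly (fun a => detStep (M a) (c a) (st a)) := by
  unfold detStep
  refine NPC.Poly.pair (poly_cap (by fun_prop) ?_) (NPC.Poly.ite (by fun_prop) (by fun_prop) ?_)
  · exact NPC.Poly.flatMap (F := fun a s => ext (M a) (c a) s) (by fun_prop) (by fun_prop)
  · refine NPC.Poly.optMap_fp (h := fun _ s => Prod.snd s) (NPC.Poly.head? ?_) (by fun_prop)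
    exact NPC.Poly.filter (p := fun a s => hitb (M a) s) (by fun_prop) (by fun_prop)

end Pool.Agent.N597.NR
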