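import Mathlib
set_option autoImplicit false

/-!
# Counting bit vectors that satisfy a list of fresh equations
-/

namespace Pool.Agent.N597.NR

/-- The value of a bit vector at a position (`false` outside). -/
def bv {p : ℕ} (r : Fin p → Bool) (i : ℕ) : Bool := if h : i < p then r ⟨i, h⟩ else false

/-- `r` satisfies all equations of the list. -/
def Sat {p : ℕ} (r : Fin p → Bool) (E : List (ℕ × ℕ)) : Prop := ∀ e ∈ E, bv r e.1 = bv r e.2

instance {p : ℕ} (r : Fin p → Bool) (E : List (ℕ × ℕ)) : Decidable (Sat r E) := by
  unfold Sat; infer_instance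

/-- Every equation fixes a bit which does not occur in the later ones. -/
def Fresh (E : List (ℕ × ℕ)) : Prop :=
  (∀ e ∈ E, e.2 ≠ e.1) ∧ E.Pairwise (fun e e' => e.2 ≠ e'.1 ∧ e.2 ≠ e'.2)

theorem bv_update_ne {p : ℕ} (r : Fin p → Bool) {q : ℕ} (hq : q < p) (b : Bool) {i : ℕ}
    (h : q ≠ i) : bv (Function.update r ⟨q, hq⟩ b) i = bv r i := by
  unfold bv
  split_ifs with h1
  · rw [Function.update_of_ne]
    intro h2
    exact h (Fin.mk.inj_iff.1 h2).symm
  · rfl

theorem bv_update_self {p : ℕ} (r : Fin p → Bool) {q : ℕ} (hq : q < p) (b : Bool) :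
    bv (Function.update r ⟨q, hq⟩ b) q = b := by
  unfold bv
  rw [dif_pos hq, Function.update_self]

theorem count_sat {p : ℕ} : ∀ (E : List (ℕ × ℕ)), Fresh E → (∀ e ∈ E, e.1 < p ∧ e.2 < p) →
    (Finset.univ.filter (fun r : Fin p → Bool => Sat r E)).card * 2 ^ E.length = 2 ^ p := by
  intro E
  induction E with
  | nil =>
    intro _ _
    simp [Sat]
  | cons e E ih =>
    intro hF hp
    have hF' : Fresh E := ⟨fun e' he' => hF.1 e' (List.mem_cons_of_mem _ he'),
      (List.pairwise_cons.1 hF.2).2⟩
    have h1 := ih hF' (fun e' he' => hp e' (List.mem_cons_of_mem _ he'))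
    have hq : e.2 < p := (hp e (by simp)).2
    have hne : e.2 ≠ e.1 := hF.1 e (by simp)
    have hE := (List.pairwise_cons.1 hF.2).1
    set S := Finset.univ.filter (fun r : Fin p → Bool => Sat r E) with hS
    have hinv : ∀ (r : Fin p → Bool) (b : Bool), Sat (Function.update r ⟨e.2, hq⟩ b) E ↔ Sat r E := by
      intro r b
      unfold Sat
      refine forall₂_congr fun e' he' => ?_
      rw [bv_update_ne r hq b (hE e' he').1, bv_update_ne r hq b (hE e' he').2]
    have h2 : (S.filter (fun r => bv r e.1 = bv r e.2)).card =
        (S.filter (fun r => ¬ bv r e.1 = bv r e.2)).card := by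
      refine Finset.card_nbij' (fun r => Function.update r ⟨e.2, hq⟩ (!(bv r e.2)))
        (fun r => Function.update r ⟨e.2, hq⟩ (!(bv r e.2))) ?_ ?_ ?_ ?_
      · intro r hr
        simp only [hS, Finset.coe_filter, Finset.mem_filter, Finset.mem_univ, true_and,
          Set.mem_ofPred_eq] at hr ⊢
        refine ⟨(hinv _ _).2 hr.1, ?_⟩
        rw [bv_update_ne r hq _ hne, bv_update_self, hr.2]
        simp
      · intro r hr
        simp only [hS, Finset.coe_filter, Finset.mem_filter, Finset.mem_univ, true_and,
          Set.mem_ofPred_eq] at hr ⊢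
        refine ⟨(hinv _ _).2 hr.1, ?_⟩
        rw [bv_update_ne r hq _ hne, bv_update_self]
        have := hr.2
        cases h3 : bv r e.1 <;> cases h4 : bv r e.2 <;> simp_all
      · intro r _
        simp only [bv_update_self, Function.update_idem, Bool.not_not]
        funext i
        by_cases hi : i = ⟨e.2, hq⟩
        · subst hi
          rw [Function.update_self]
          unfold bv
          rw [dif_pos hq]
        · rw [Function.update_of_ne hi]
      · intro r _
        simp only [bv_update_self, Function.update_idem, Bool.not_not]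
        funext i
        by_cases hi : i = ⟨e.2, hq⟩
        · subst hi
          rw [Function.update_self]
          unfold bv
          rw [dif_pos hq]
        · rw [Function.update_of_ne hi]
    have h3 := Finset.card_filter_add_card_filter_not (s := S) (fun r => bv r e.1 = bv r e.2)
    have h4 : Finset.univ.filter (fun r : Fin p → Bool => Sat r (e :: E)) =
        S.filter (fun r => bv r e.1 = bv r e.2) := by
      ext r
      rw [Finset.mem_filter, Finset.mem_filter, hS, Finset.mem_filter]
      unfold Sat
      rw [List.forall_mem_cons]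
      simp only [Finset.mem_univ, true_and]
      exact and_comm
    rw [h4, List.length_cons, pow_succ]
    calc (S.filter (fun r => bv r e.1 = bv r e.2)).card * (2 ^ E.length * 2)
        = ((S.filter (fun r => bv r e.1 = bv r e.2)).card +
            (S.filter (fun r => bv r e.1 = bv r e.2)).card) * 2 ^ E.length := by ring
      _ = S.card * 2 ^ E.length := by rw [← h3, ← h2]
      _ = 2 ^ p := h1

end Pool.Agent.N597.NR
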