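import Pool.Agent.N597.NR.Run
set_option autoImplicit false
set_option maxHeartbeats 400000

/-!
# The probability of a failure
-/

namespace Pool.Agent.N597.NR

open Finset

theorem length_flatMap_if {α β : Type*} (f : α → List β) (q : α → Bool) (C : ℕ) :
    ∀ (l : List α), (∀ x ∈ l, q x = true → (f x).length ≤ C) → (∀ x ∈ l, q x = false → f x = []) →
      (l.flatMap f).length ≤ (l.filter q).length * C := by
  intro l
  induction l with
  | nil => intro _ _; simp
  | cons x l ih =>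
    intro h1 h2
    rw [List.flatMap_cons, List.length_append, List.filter_cons]
    have h3 := ih (fun y hy => h1 y (List.mem_cons_of_mem _ hy))
      (fun y hy => h2 y (List.mem_cons_of_mem _ hy))
    split_ifs with h
    · rw [List.length_cons, add_mul, one_mul]
      have := h1 x (by simp) h
      omega
    · rw [h2 x (by simp) (by simpa using h)]
      simpa using h3

theorem length_extA {Mx : Mat} {D : ℕ} (hD : ∀ v, (nb Mx v).length ≤ D) (s : ℕ × Pc) :
    (extA Mx s).length ≤ D * D := by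
  unfold extA
  refine (length_flatMap_if _ (fun x => adj Mx (s.2.head?.getD (0, 0)).1 x) D _ ?_ ?_).trans
    (Nat.mul_le_mul_right _ (hD _))
  · intro x _ hx
    refine (length_flatMap_if _ (fun y => adj Mx (s.2.head?.getD (0, 0)).2 y) 1 _ ?_ ?_).trans
      (by rw [mul_one]; exact hD _)
    · intro y _ _
      split_ifs <;> simp
    · intro y _ hy
      rw [if_neg]
      intro h
      rw [hy] at h
      exact absurd h.2.1 (by simp)
  · intro x _ hx
    rw [List.flatMap_eq_nil_iff]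
    intro y _
    rw [if_neg]
    intro h
    rw [hx] at h
    exact absurd h.1 (by simp)

theorem length_allw {Mx : Mat} {D : ℕ} (hD : ∀ v, (nb Mx v).length ≤ D) (i : ℕ) :
    (allw Mx i).length ≤ Mx.length * Mx.length * (D * D) ^ i := by
  induction i with
  | zero =>
    rw [pow_zero, mul_one, allw]
    unfold allw0
    refine (length_flatMap_le _ Mx.length _ ?_).trans (by rw [List.length_range])
    intro u _
    refine (length_flatMap_le _ 1 _ ?_).trans (by rw [List.length_range, mul_one])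
    intro w _
    split_ifs <;> simp
  | succ i ih =>
    rw [allw]
    refine (length_flatMap_le _ (D * D) _ (fun s _ => length_extA hD s)).trans ?_
    rw [pow_succ, ← mul_assoc (Mx.length * Mx.length)]
    exact Nat.mul_le_mul_right _ ih

/-! ### Counting -/

/-- The number of bit vectors with a property. -/
noncomputable def nr {p : ℕ} (Q : (Fin p → Bool) → Prop) : ℝ :=
  ((@Finset.filter _ Q (fun _ => Classical.propDecidable _) univ).card : ℝ)

theorem nr_nonneg {p : ℕ} (Q : (Fin p → Bool) → Prop) : 0 ≤ nr Q := by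
  unfold nr; positivity

theorem nr_eq {p : ℕ} (Q : (Fin p → Bool) → Prop) [DecidablePred Q] :
    nr Q = ((univ.filter Q).card : ℝ) := by
  unfold nr
  congr!

theorem nr_mono {p : ℕ} {Q Q' : (Fin p → Bool) → Prop} (h : ∀ r, Q r → Q' r) : nr Q ≤ nr Q' := by
  classical
  rw [nr_eq, nr_eq]
  exact Nat.cast_le.2 (card_le_card fun r hr => by
    rw [mem_filter] at hr ⊢
    exact ⟨hr.1, h r hr.2⟩)

theorem nr_false {p : ℕ} {Q : (Fin p → Bool) → Prop} (h : ∀ r, ¬ Q r) : nr Q = 0 := by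
  classical
  rw [nr_eq, filter_false_of_mem (fun r _ => h r)]
  simp

theorem nr_or {p : ℕ} (Q Q' : (Fin p → Bool) → Prop) : nr (fun r => Q r ∨ Q' r) ≤ nr Q + nr Q' := by
  classical
  rw [nr_eq, nr_eq, nr_eq, filter_or]
  exact_mod_cast card_union_le _ _

theorem nr_exists {α : Type*} {p : ℕ} (l : List α) (Q : α → (Fin p → Bool) → Prop) :
    nr (fun r => ∃ x ∈ l, Q x r) ≤ (l.map fun x => nr (Q x)).sum := by
  induction l with
  | nil =>
    rw [nr_false (by simp)]
    simp
  | cons x l ih =>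
    rw [List.map_cons, List.sum_cons]
    have h1 : nr (fun r => ∃ y ∈ x :: l, Q y r) ≤ nr (fun r => Q x r ∨ ∃ y ∈ l, Q y r) := by
      refine nr_mono fun r hr => ?_
      obtain ⟨y, hy, hQ⟩ := hr
      rcases List.mem_cons.1 hy with h | h
      · left; exact h ▸ hQ
      · right; exact ⟨y, h, hQ⟩
    have h2 := nr_or (fun r => Q x r) (fun r => ∃ y ∈ l, Q y r)
    linarith

theorem sum_length_filter {α : Type*} {p : ℕ} (Q : (Fin p → Bool) → α → Bool) (l : List α) :
    (∑ r : Fin p → Bool, ((l.filter (Q r)).length : ℝ)) =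
      (l.map fun s => nr fun r : Fin p → Bool => Q r s = true).sum := by
  classical
  induction l with
  | nil => simp
  | cons s l ih =>
    rw [List.map_cons, List.sum_cons, ← ih, nr_eq, card_filter]
    push_cast
    rw [← sum_add_distrib]
    apply sum_congr rfl
    intro r _
    rw [List.filter_cons]
    split_ifs with h
    · rw [List.length_cons]; push_cast; ring
    · simp

theorem nr_markov {p : ℕ} (K : ℕ) (f : (Fin p → Bool) → ℕ) :
    nr (fun r => K < f r) * K ≤ ∑ r : Fin p → Bool, (f r : ℝ) := by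
  classical
  rw [nr_eq, ← nsmul_eq_mul, ← sum_const]
  refine (sum_le_sum (g := fun r : Fin p → Bool => (f r : ℝ)) ?_).trans
    (sum_le_sum_of_subset_of_nonneg (filter_subset _ _) (fun _ _ _ => by positivity))
  intro r hr
  rw [mem_filter] at hr
  exact_mod_cast hr.2.le

/-- The weight of a piece. -/
noncomputable def Wt (b : ℕ) (A : Pc) : ℝ := 2 * (1 / 2 : ℝ) ^ (b * A.length)

theorem Wt_nonneg (b : ℕ) (A : Pc) : 0 ≤ Wt b A := by unfold Wt; positivity

theorem prod_Wt (b : ℕ) (H : List Pc) :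
    (H.map (Wt b)).prod = 2 ^ H.length * (1 / 2 : ℝ) ^ (b * (H.map List.length).sum) := by
  induction H with
  | nil => simp
  | cons A H ih =>
    rw [List.map_cons, List.prod_cons, ih, List.map_cons, List.sum_cons, List.length_cons, Wt,
      mul_add, pow_add, pow_succ]
    ring

theorem prod_Wt_nonneg (b : ℕ) (H : List Pc) : 0 ≤ (H.map (Wt b)).prod := by
  rw [prod_Wt]; positivity

theorem nr_sat {n M b p : ℕ} {A : Pc} {H : List Pc} (hA : Bd n A) (hH : ∀ B ∈ H, Bd n B)
    (hM : H.length < M) (hp : n * M * b ≤ p) :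
    nr (fun r : Fin p → Bool => Sat r (alleqs M b (A :: H))) =
      2 ^ p * ((1 / 2 : ℝ) ^ (b * A.length) * ((1 / 2) ^ H.length * (H.map (Wt b)).prod)) := by
  have h1 := count_pass (n := n) (M := M) (b := b) (p := p) (H := A :: H) (by
    intro B hB
    rcases List.mem_cons.1 hB with h | h
    · rw [h]; exact hA
    · exact hH B h) (by rw [List.length_cons]; omega) hp
  have h2 : nr (fun r : Fin p → Bool => Sat r (alleqs M b (A :: H))) *
      2 ^ (b * ((A :: H).map List.length).sum) = 2 ^ p := by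
    rw [nr_eq]
    exact_mod_cast h1
  rw [prod_Wt, ← h2, List.map_cons, List.sum_cons, mul_add, pow_add]
  have e1 : ∀ m : ℕ, (2 : ℝ) ^ m * (1 / 2) ^ m = 1 := fun m => by
    rw [← mul_pow]; norm_num
  have e2 : ∀ m : ℕ, (1 / 2 : ℝ) ^ m * 2 ^ m = 1 := fun m => by
    rw [← mul_pow]; norm_num
  generalize nr (fun r : Fin p → Bool => Sat r (alleqs M b (A :: H))) = X
  calc X = X * 1 * 1 * 1 := by ring
    _ = X * (2 ^ (b * A.length) * (1 / 2) ^ (b * A.length)) *
        (2 ^ (b * (H.map List.length).sum) * (1 / 2) ^ (b * (H.map List.length).sum)) *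
        ((1 / 2) ^ H.length * 2 ^ H.length) := by rw [e1, e1, e2]
    _ = _ := by ring

section Main

variable {Mx : Mat} {D p : ℕ}

/-- the fuel -/
def fuel (n : ℕ) : ℕ := n + (n + 1) * Tn n

theorem root_code (hsym : ∀ u v, adj Mx u v = adj Mx v u) {B : Pc} {H : List Pc}
    (hH : ∀ A ∈ H, Al Mx A) (hB : Bd Mx.length B) (hl : H.length ≤ Tn Mx.length) :
    ∃ H' ∈ codes (PP Mx) (fuel Mx.length) (verts B).toFinset, H'.length ≤ Tn Mx.length ∧
      (∀ v ∈ verts B, cnt H' v = cnt H v) ∧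
      ∀ (p M b : ℕ) (r : Fin p → Bool), Sat r (alleqs M b (B :: H)) →
        Sat r (alleqs M b (B :: H')) := by
  have hsub := past_sublist H (verts B).toFinset
  have hcard : (verts B).toFinset.card ≤ Mx.length := by
    have h2 : (verts B).toFinset ⊆ range Mx.length := by
      intro x hx
      rw [List.mem_toFinset] at hx
      exact mem_range.2 (hB.2 x hx)
    exact (card_le_card h2).trans (by simp)
  obtain ⟨H', h1, h2, h3⟩ := exists_code (n := Mx.length) (P := PP Mx) (Al := Al Mx)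
    (fun A hA => by obtain ⟨w₁, h, _⟩ := hA; exact h.bd)
    (fun A v hA hv => by obtain ⟨w₁, h, h'⟩ := hA; exact mem_PP hsym h h' hv)
    (fuel Mx.length) (verts B).toFinset (past (verts B).toFinset H) (inv_past _ _)
    (fun A hA => hH A (hsub.subset hA)) (by
      have h4 := hsub.length_le
      unfold fuel
      have h5 : (Mx.length + 1) * (past (verts B).toFinset H).length ≤
          (Mx.length + 1) * Tn Mx.length := Nat.mul_le_mul_left _ (h4.trans hl)
      omega)
  refine ⟨H', h1, ?_, ?_, ?_⟩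
  · rw [h2.length_eq]
    exact hsub.length_le.trans hl
  · intro v hv
    rw [cnt_perm h2, cnt_past _ _ v (List.mem_toFinset.2 hv)]
  · intro p M b r h
    rw [sat_alleqs_cons] at h ⊢
    refine ⟨?_, h3 p M b r (sat_past _ _ h.2)⟩
    rw [eqs_congr (c' := cnt H)]
    · exact h.1
    · intro v hv
      rw [cnt_perm h2, cnt_past _ _ v (List.mem_toFinset.2 hv)]

theorem PP_bd {v : ℕ} {A : Pc} (h : A ∈ PP Mx v) : Bd Mx.length A := by
  unfold PP at h
  rw [List.mem_filter] at h
  simpa using h.2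

theorem sat_suffix {M b : ℕ} {r : Fin p → Bool} {H₁ H₂ : List Pc}
    (h : Sat r (alleqs M b (H₁ ++ H₂))) : Sat r (alleqs M b H₂) := by
  induction H₁ with
  | nil => exact h
  | cons A H₁ ih =>
    rw [List.cons_append, sat_alleqs_cons] at h
    exact ih h.2

theorem exists_first {v m : ℕ} : ∀ {H : List Pc}, m + 1 ≤ cnt H v →
    ∃ (H₁ : List Pc) (A : Pc) (H₂ : List Pc), H = H₁ ++ A :: H₂ ∧ v ∈ verts A ∧ m ≤ cnt H₂ v := by
  intro H
  induction H with
  | nil => intro h; simp at h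
  | cons B H ih =>
    intro h
    by_cases hv : v ∈ verts B
    · refine ⟨[], B, H, rfl, hv, ?_⟩
      rw [cnt_cons, if_pos hv] at h
      omega
    · rw [cnt_cons, if_neg hv, add_zero] at h
      obtain ⟨H₁, A, H₂, h1, h2, h3⟩ := ih h
      exact ⟨B :: H₁, A, H₂, by rw [h1]; rfl, h2, h3⟩

theorem length_le_sum_cnt {n : ℕ} : ∀ {H : List Pc}, (∀ A ∈ H, Bd n A ∧ A ≠ []) →
    H.length ≤ ∑ v ∈ range n, cnt H v := by
  intro H
  induction H with
  | nil => intro _; simp
  | cons A H ih =>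
    intro h
    have h1 := ih (fun B hB => h B (List.mem_cons_of_mem _ hB))
    simp only [cnt_cons, sum_add_distrib, List.length_cons]
    have h2 : 1 ≤ ∑ v ∈ range n, (if v ∈ verts A then 1 else 0) := by
      obtain ⟨h3, h4⟩ := h A (by simp)
      cases A with
      | nil => exact absurd rfl h4
      | cons e A =>
        have h5 : e.1 ∈ verts (e :: A) := (verts_cons e A _).2 (by tauto)
        have h6 := single_le_sum (f := fun v => if v ∈ verts (e :: A) then 1 else 0)
          (s := range n) (fun _ _ => Nat.zero_le _) (mem_range.2 (h3.2 _ h5))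
        simp only [if_pos h5] at h6
        exact h6
    omega

/-- The histories. -/
noncomputable def hist (Mx : Mat) {p : ℕ} (r : Fin p → Bool) : List Pc :=
  Classical.choose (run_history (Mx := Mx) r (Tn Mx.length) le_rfl)

theorem hist_spec (r : Fin p → Bool) :
    (hist Mx r).length ≤ Tn Mx.length ∧ (∀ A ∈ hist Mx r, Al Mx A) ∧
    Sat r (alleqs (Tn Mx.length + 1) (bb Mx) (hist Mx r)) ∧
    (stepS Mx)^[Tn Mx.length] (initS Mx (List.ofFn r)) = stateOf Mx (List.ofFn r) (hist Mx r) ∧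
    ((hist Mx r).length < Tn Mx.length →
      det Mx (cols (stateOf Mx (List.ofFn r) (hist Mx r))) = none) :=
  Classical.choose_spec (run_history (Mx := Mx) r (Tn Mx.length) le_rfl)

theorem bad1_sub (hn : 1 ≤ Mx.length) (hsym : ∀ u v, adj Mx u v = adj Mx v u) (r : Fin p → Bool)
    (hr : (hist Mx r).length = Tn Mx.length) :
    ∃ v ∈ List.range Mx.length, ∃ A ∈ PP Mx v,
      ∃ H ∈ codes (PP Mx) (fuel Mx.length) (verts A).toFinset,
        (2 * Mx.length ≤ H.length ∧ H.length ≤ Tn Mx.length) ∧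
        Sat r (alleqs (Tn Mx.length + 1) (bb Mx) (A :: H)) := by
  obtain ⟨h1, h2, h3, _, _⟩ := hist_spec (Mx := Mx) r
  have h4 : ∃ v ∈ range Mx.length, 2 * Mx.length + 1 ≤ cnt (hist Mx r) v := by
    by_contra hcon
    push Not at hcon
    have h5 := length_le_sum_cnt (n := Mx.length) (H := hist Mx r) (fun A hA => by
      obtain ⟨w₁, h, _⟩ := h2 A hA
      refine ⟨h.bd, ?_⟩
      rintro rfl
      exact absurd h (by simp [Good]))
    have h6 : ∑ v ∈ range Mx.length, cnt (hist Mx r) v ≤ ∑ v ∈ range Mx.length, 2 * Mx.length :=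
      sum_le_sum fun v hv => by have := hcon v hv; omega
    rw [sum_const, card_range, smul_eq_mul] at h6
    rw [hr] at h5
    unfold Tn at h5
    rw [mul_add, mul_one] at h5
    omega
  obtain ⟨v, hv, h5⟩ := h4
  obtain ⟨H₁, A, H₂, h6, h7, h8⟩ := exists_first h5
  rw [h6] at h1 h2 h3
  have h9 := sat_suffix h3
  have hA : Al Mx A := h2 A (by simp)
  rw [List.length_append, List.length_cons] at h1
  obtain ⟨w₁, hg, hh⟩ := hA
  obtain ⟨H', h10, h11, h12, h13⟩ := root_code hsym (B := A) (H := H₂)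
    (fun B hB => h2 B (by simp [hB])) hg.bd (by omega)
  refine ⟨v, List.mem_range.2 (mem_range.1 hv), A, mem_PP hsym hg hh h7, H', h10, ⟨?_, h11⟩,
    h13 _ _ _ _ h9⟩
  have h14 := cnt_le_length H' v
  rw [h12 v h7] at h14
  omega

/-- The hypotheses. -/
structure Hyp (Mx : Mat) (D p : ℕ) : Prop where
  hn : 1 ≤ Mx.length
  hsym : ∀ u v, adj Mx u v = adj Mx v u
  hD1 : 1 ≤ D
  hD : ∀ v, (nb Mx v).length ≤ D
  hb : 64 * D ^ 2 ≤ 2 ^ bb Mx
  hp : Mx.length * (Tn Mx.length + 1) * bb Mx ≤ p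

theorem Hyp.hsum (h : Hyp Mx D p) (v : ℕ) :
    ((PP Mx v).map fun A => Wt (bb Mx) A * 2 ^ (verts A).length).sum ≤ 1 := by
  unfold Wt; exact sum_PP h.hD1 h.hD h.hb v

theorem Hyp.codes_sum (h : Hyp Mx D p) (B : Pc) :
    ((codes (PP Mx) (fuel Mx.length) (verts B).toFinset).map
      fun H => (H.map (Wt (bb Mx))).prod).sum ≤ 2 ^ (verts B).length :=
  (sum_codes (P := PP Mx) (W := Wt (bb Mx)) (Wt_nonneg _) h.hsum (fuel Mx.length)
    (verts B).toFinset).trans (pow_le_pow_right₀ (by norm_num) (List.toFinset_card_le _))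

theorem Hyp.nr_code (h : Hyp Mx D p) {B : Pc} (hB : Bd Mx.length B) (m : ℕ) {H : List Pc}
    (hH : H ∈ codes (PP Mx) (fuel Mx.length) (verts B).toFinset) :
    nr (fun r : Fin p → Bool => (m ≤ H.length ∧ H.length ≤ Tn Mx.length) ∧
        Sat r (alleqs (Tn Mx.length + 1) (bb Mx) (B :: H))) ≤
      (2 ^ p * (1 / 2) ^ (bb Mx * B.length) * (1 / 2) ^ m) * (H.map (Wt (bb Mx))).prod := by
  have hWH := prod_Wt_nonneg (bb Mx) H
  by_cases hc : m ≤ H.length ∧ H.length ≤ Tn Mx.length
  · refine (nr_mono (Q' := fun r : Fin p → Bool =>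
      Sat r (alleqs (Tn Mx.length + 1) (bb Mx) (B :: H))) (fun r hr => hr.2)).trans ?_
    rw [nr_sat (n := Mx.length) hB (mem_codes (P := PP Mx) (Q := Bd Mx.length)
      (fun v A hA => PP_bd hA) _ _ H hH) (by omega) h.hp]
    have h8 : ((1 : ℝ) / 2) ^ H.length ≤ (1 / 2) ^ m :=
      pow_le_pow_of_le_one (by norm_num) (by norm_num) hc.1
    calc (2 : ℝ) ^ p * ((1 / 2 : ℝ) ^ (bb Mx * B.length) *
          ((1 / 2) ^ H.length * (H.map (Wt (bb Mx))).prod))
        ≤ (2 : ℝ) ^ p * ((1 / 2 : ℝ) ^ (bb Mx * B.length) *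
          ((1 / 2) ^ m * (H.map (Wt (bb Mx))).prod)) := by gcongr
      _ = _ := by ring
  · rw [nr_false (fun r hr => hc hr.1)]
    positivity

theorem Hyp.nr_codes (h : Hyp Mx D p) {B : Pc} (hB : Bd Mx.length B) (m : ℕ) :
    nr (fun r : Fin p → Bool => ∃ H ∈ codes (PP Mx) (fuel Mx.length) (verts B).toFinset,
        (m ≤ H.length ∧ H.length ≤ Tn Mx.length) ∧
        Sat r (alleqs (Tn Mx.length + 1) (bb Mx) (B :: H))) ≤
      2 ^ p * (1 / 2) ^ (bb Mx * B.length) * (1 / 2) ^ m * 2 ^ (verts B).length := by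
  refine (nr_exists (codes (PP Mx) (fuel Mx.length) (verts B).toFinset)
    (fun H (r : Fin p → Bool) => (m ≤ H.length ∧ H.length ≤ Tn Mx.length) ∧
        Sat r (alleqs (Tn Mx.length + 1) (bb Mx) (B :: H)))).trans ?_
  refine (List.sum_le_sum (fun H hH => h.nr_code hB m hH)).trans ?_
  rw [List.sum_map_mul_left]
  exact mul_le_mul_of_nonneg_left (h.codes_sum B) (by positivity)

theorem Hyp.bad1 (h : Hyp Mx D p) :
    nr (fun r : Fin p → Bool => (hist Mx r).length = Tn Mx.length) ≤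
      2 ^ p * (1 / (2 * Mx.length)) := by
  refine (nr_mono (fun r hr => bad1_sub h.hn h.hsym r hr)).trans ?_
  refine (nr_exists (List.range Mx.length) (fun v (r : Fin p → Bool) => ∃ A ∈ PP Mx v,
      ∃ H ∈ codes (PP Mx) (fuel Mx.length) (verts A).toFinset,
        (2 * Mx.length ≤ H.length ∧ H.length ≤ Tn Mx.length) ∧
        Sat r (alleqs (Tn Mx.length + 1) (bb Mx) (A :: H)))).trans ?_
  have h3 : ∀ v ∈ List.range Mx.length, nr (fun r : Fin p → Bool => ∃ A ∈ PP Mx v,
      ∃ H ∈ codes (PP Mx) (fuel Mx.length) (verts A).toFinset,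
        (2 * Mx.length ≤ H.length ∧ H.length ≤ Tn Mx.length) ∧
        Sat r (alleqs (Tn Mx.length + 1) (bb Mx) (A :: H))) ≤
      2 ^ p * (1 / 2) ^ (2 * Mx.length) * (1 / 2) := by
    intro v _
    refine (nr_exists (PP Mx v) (fun A (r : Fin p → Bool) =>
      ∃ H ∈ codes (PP Mx) (fuel Mx.length) (verts A).toFinset,
        (2 * Mx.length ≤ H.length ∧ H.length ≤ Tn Mx.length) ∧
        Sat r (alleqs (Tn Mx.length + 1) (bb Mx) (A :: H)))).trans ?_
    refine (List.sum_le_sum (g := fun A => (2 ^ p * (1 / 2) ^ (2 * Mx.length) * (1 / 2)) *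
      (Wt (bb Mx) A * 2 ^ (verts A).length)) (fun A hA => ?_)).trans ?_
    · refine (h.nr_codes (PP_bd hA) _).trans (le_of_eq ?_)
      unfold Wt
      ring
    · rw [List.sum_map_mul_left]
      exact mul_le_of_le_one_right (by positivity) (h.hsum v)
  refine (sum_const_le _ _ _ h3).trans ?_
  rw [List.length_range]
  set n := Mx.length with hnn
  have hnpos : (0 : ℝ) < n := by exact_mod_cast h.hn
  have h4 : (n : ℝ) * n ≤ 4 ^ n := by
    have h5 : (n : ℝ) ≤ 2 ^ n := by exact_mod_cast Nat.lt_two_pow_self.le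
    calc (n : ℝ) * n ≤ 2 ^ n * 2 ^ n := mul_le_mul h5 h5 hnpos.le (by positivity)
      _ = 4 ^ n := by rw [← mul_pow]; norm_num
  have h5 : (n : ℝ) * (1 / 4) ^ n ≤ 1 / n := by
    rw [le_div_iff₀ hnpos]
    calc (n : ℝ) * (1 / 4) ^ n * n = (n * n) * (1 / 4) ^ n := by ring
      _ ≤ 4 ^ n * (1 / 4) ^ n := mul_le_mul_of_nonneg_right h4 (by positivity)
      _ = 1 := by rw [← mul_pow]; norm_num
  have h6 : (2 : ℝ) ^ p * (1 / (2 * n)) = 2 ^ p * (1 / 2) * (1 / n) := by
    field_simp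
  rw [h6, pow_mul]
  calc (n : ℝ) * (2 ^ p * ((1 / 2) ^ 2) ^ n * (1 / 2)) =
        2 ^ p * (1 / 2) * (n * (1 / 4) ^ n) := by norm_num; ring
    _ ≤ 2 ^ p * (1 / 2) * (1 / n) := mul_le_mul_of_nonneg_left h5 (by positivity)

theorem Hyp.nr_mt (h : Hyp Mx D p) {s : ℕ × Pc} (hs : Bd Mx.length s.2) :
    nr (fun r : Fin p → Bool =>
      mt (cols (stateOf Mx (List.ofFn r) (hist Mx r))) s = true) ≤
      2 ^ p * ((1 / 2) ^ bb Mx * 4) ^ s.2.length := by
  refine (nr_mono (Q' := fun r : Fin p → Bool =>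
    ∃ H ∈ codes (PP Mx) (fuel Mx.length) (verts s.2).toFinset,
        (0 ≤ H.length ∧ H.length ≤ Tn Mx.length) ∧
        Sat r (alleqs (Tn Mx.length + 1) (bb Mx) (s.2 :: H))) ?_).trans ?_
  · intro r hr
    obtain ⟨h2, h3, h4, _, _⟩ := hist_spec (Mx := Mx) r
    have h5 := (mt_stateOf hs.2 h2).1 hr
    obtain ⟨H', h6, h7, _, h8⟩ := root_code h.hsym (B := s.2) (H := hist Mx r) h3 hs h2
    exact ⟨H', h6, ⟨Nat.zero_le _, h7⟩, h8 _ _ _ _ (sat_alleqs_cons.2 ⟨h5, h4⟩)⟩
  · refine (h.nr_codes hs 0).trans (le_of_eq ?_)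
    rw [length_verts, mul_pow, ← pow_mul, pow_mul (2 : ℝ) 2]
    norm_num
    ring

theorem Hyp.bad2 (h : Hyp Mx D p) (i : ℕ) :
    nr (fun r : Fin p → Bool => Mx.length * Mx.length * Mx.length <
      (lev Mx (cols (stateOf Mx (List.ofFn r) (hist Mx r))) i).length) ≤
      2 ^ p * (1 / (2 * Mx.length)) * (1 / 2) ^ (i + 1) := by
  have hD1 := h.hD1
  have hb := h.hb
  have hnpos : (0 : ℝ) < Mx.length := by exact_mod_cast h.hn
  have h1 : (∑ r : Fin p → Bool, (((allw Mx i).filter
      (mt (cols (stateOf Mx (List.ofFn r) (hist Mx r))))).length : ℝ)) ≤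
      (Mx.length : ℝ) * Mx.length * ((D : ℝ) * D) ^ i *
        (2 ^ p * ((1 / 2) ^ bb Mx * 4) ^ (i + 1)) := by
    rw [sum_length_filter (fun (r : Fin p → Bool) s =>
      mt (cols (stateOf Mx (List.ofFn r) (hist Mx r))) s)]
    refine (sum_const_le _ (2 ^ p * ((1 / 2) ^ bb Mx * 4) ^ (i + 1)) _ ?_).trans ?_
    · intro s hs
      rw [mem_allw] at hs
      have := h.nr_mt (s := s) hs.2.bd
      rw [hs.1] at this
      exact this
    · refine mul_le_mul_of_nonneg_right ?_ (by positivity)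
      exact_mod_cast length_allw h.hD i
  have h2 := nr_markov (p := p) (Mx.length * Mx.length * Mx.length) (fun r =>
      (lev Mx (cols (stateOf Mx (List.ofFn r) (hist Mx r))) i).length)
  have h2' : (∑ r : Fin p → Bool,
      ((lev Mx (cols (stateOf Mx (List.ofFn r) (hist Mx r))) i).length : ℝ)) =
      (∑ r : Fin p → Bool, (((allw Mx i).filter
      (mt (cols (stateOf Mx (List.ofFn r) (hist Mx r))))).length : ℝ)) :=
    sum_congr rfl fun r _ => by rw [lev_eq]
  rw [h2'] at h2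
  generalize nr (fun r : Fin p → Bool => Mx.length * Mx.length * Mx.length <
      (lev Mx (cols (stateOf Mx (List.ofFn r) (hist Mx r))) i).length) = X at h2 ⊢
  set n := Mx.length with hnn
  set b := bb Mx with hbb
  have h64 : ((1 / 2 : ℝ) ^ b * 4) * ((D : ℝ) * D) ≤ 1 / 16 := by
    have h7 : (64 : ℝ) * (D : ℝ) ^ 2 ≤ 2 ^ b := by exact_mod_cast hb
    have h8 : (64 : ℝ) * (D : ℝ) ^ 2 * (1 / 2) ^ b ≤ 1 := by
      calc (64 : ℝ) * (D : ℝ) ^ 2 * (1 / 2) ^ b ≤ 2 ^ b * (1 / 2) ^ b :=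
            mul_le_mul_of_nonneg_right h7 (by positivity)
        _ = 1 := by rw [← mul_pow]; norm_num
    nlinarith
  have hDpos : (1 : ℝ) ≤ (D : ℝ) * D := by
    have : (1 : ℝ) ≤ D := by exact_mod_cast hD1
    nlinarith
  have h3 : ((D : ℝ) * D) ^ i * ((1 / 2) ^ b * 4) ^ (i + 1) ≤ (1 / 2) * (1 / 2) ^ (i + 1) := by
    calc ((D : ℝ) * D) ^ i * ((1 / 2) ^ b * 4) ^ (i + 1)
        ≤ ((D : ℝ) * D) ^ (i + 1) * ((1 / 2) ^ b * 4) ^ (i + 1) :=
          mul_le_mul_of_nonneg_right (pow_le_pow_right₀ hDpos (by omega)) (by positivity)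
      _ = (((1 / 2 : ℝ) ^ b * 4) * ((D : ℝ) * D)) ^ (i + 1) := by rw [mul_pow _ ((D : ℝ) * D)]; ring
      _ ≤ (1 / 16) ^ (i + 1) := pow_le_pow_left₀ (by positivity) h64 _
      _ = (1 / 8) ^ (i + 1) * (1 / 2) ^ (i + 1) := by rw [← mul_pow]; norm_num
      _ ≤ (1 / 2) * (1 / 2) ^ (i + 1) := by
        refine mul_le_mul_of_nonneg_right ?_ (by positivity)
        calc ((1 : ℝ) / 8) ^ (i + 1) ≤ (1 / 8) ^ 1 :=
              pow_le_pow_of_le_one (by norm_num) (by norm_num) (by omega)
          _ ≤ 1 / 2 := by norm_num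
  have h4 := h2.trans h1
  have h5 : (n : ℝ) * n * ((D : ℝ) * D) ^ i * (2 ^ p * ((1 / 2) ^ b * 4) ^ (i + 1)) ≤
      (2 ^ p * (1 / (2 * n)) * (1 / 2) ^ (i + 1)) * (n * n * n) := by
    calc (n : ℝ) * n * ((D : ℝ) * D) ^ i * (2 ^ p * ((1 / 2) ^ b * 4) ^ (i + 1))
        = (n : ℝ) * n * 2 ^ p * (((D : ℝ) * D) ^ i * ((1 / 2) ^ b * 4) ^ (i + 1)) := by ring
      _ ≤ (n : ℝ) * n * 2 ^ p * ((1 / 2) * (1 / 2) ^ (i + 1)) :=
          mul_le_mul_of_nonneg_left h3 (by positivity)
      _ = _ := by field_simp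
  push_cast at h4
  exact le_of_mul_le_mul_right (h4.trans h5) (by positivity)

/-- The failure probability. -/
theorem Hyp.bad (h : Hyp Mx D p) :
    nr (fun r : Fin p → Bool => (hist Mx r).length = Tn Mx.length ∨
      ∃ i ∈ List.range (Mx.length + 1), Mx.length * Mx.length * Mx.length <
      (lev Mx (cols (stateOf Mx (List.ofFn r) (hist Mx r))) i).length) ≤
      2 ^ p * (1 / Mx.length) := by
  have hnpos : (0 : ℝ) < Mx.length := by exact_mod_cast h.hn
  have h1 := h.bad1
  have h2 := nr_exists (p := p) (List.range (Mx.length + 1)) (fun i r =>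
    Mx.length * Mx.length * Mx.length <
      (lev Mx (cols (stateOf Mx (List.ofFn r) (hist Mx r))) i).length)
  have h3 : ((List.range (Mx.length + 1)).map fun i =>
      nr (fun r : Fin p → Bool => Mx.length * Mx.length * Mx.length <
      (lev Mx (cols (stateOf Mx (List.ofFn r) (hist Mx r))) i).length)).sum ≤
      2 ^ p * (1 / (2 * Mx.length)) := by
    refine (List.sum_le_sum (g := fun i => 2 ^ p * (1 / (2 * (Mx.length : ℝ))) *
      (1 / 2) ^ (i + 1)) (fun i _ => h.bad2 i)).trans ?_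
    rw [List.sum_map_mul_left]
    exact mul_le_of_le_one_right (by positivity) (sum_half _)
  have h4 := nr_or (p := p) (fun r => (hist Mx r).length = Tn Mx.length) (fun r =>
      ∃ i ∈ List.range (Mx.length + 1), Mx.length * Mx.length * Mx.length <
      (lev Mx (cols (stateOf Mx (List.ofFn r) (hist Mx r))) i).length)
  have h5 : (2 : ℝ) ^ p * (1 / Mx.length) = 2 ^ p * (1 / (2 * Mx.length)) +
      2 ^ p * (1 / (2 * Mx.length)) := by
    field_simp
    norm_num
  rw [h5]
  linarith [h2.trans h3]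

end Main

end Pool.Agent.N597.NR
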