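import Pool.Agent.N597.NR.Poly2
import Pool.Agent.N597.NR.Prob
set_option autoImplicit false

/-!
# Nonrepetitive colourings with `O(Δ ^ 2)` colours in polynomial time
-/

namespace Pool.Agent.N597.NR

open Pool.Agent.NPC Pool.Agent.NPC.R671

/-- A colouring `c` of the vertices of `G` is nonrepetitive: there is no path
`v₁, …, v_t, v_{t + 1}, …, v_{2 t}` with `t ≥ 1` (here `l₁ = [v₁, …, v_t]` and
`l₂ = [v_{t + 1}, …, v_{2 t}]`) such that `c v_i = c v_{t + i}` for all `1 ≤ i ≤ t`. -/
def Nonrepetitive {V : Type*} (G : SimpleGraph V) (c : V → ℕ) : Prop :=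
  ∀ l₁ l₂ : List V, l₁ ≠ [] → l₁.length = l₂.length → (l₁ ++ l₂).Nodup →
    (l₁ ++ l₂).IsChain G.Adj → l₁.map c ≠ l₂.map c

section Matrix

variable {n : ℕ} (G : SimpleGraph (Fin n))

theorem length_adjMatrix : (adjMatrix G).length = n := by simp [adjMatrix]

theorem adj_adjMatrix (u v : ℕ) :
    adj (adjMatrix G) u v = true ↔ ∃ (hu : u < n) (hv : v < n), G.Adj ⟨u, hu⟩ ⟨v, hv⟩ := by
  unfold adj adjMatrix
  rw [List.getD_eq_getElem?_getD, List.getD_eq_getElem?_getD, List.getElem?_ofFn]
  by_cases hu : u < n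
  · rw [dif_pos hu]
    simp only [Option.getD_some]
    rw [List.getElem?_ofFn]
    by_cases hv : v < n
    · rw [dif_pos hv]
      simp [hu, hv]
    · rw [dif_neg hv]
      simp [hv]
  · rw [dif_neg hu]
    simp [hu]

theorem adj_symm (u v : ℕ) : adj (adjMatrix G) u v = adj (adjMatrix G) v u := by
  rw [Bool.eq_iff_iff, adj_adjMatrix, adj_adjMatrix]
  constructor
  · rintro ⟨hu, hv, h⟩; exact ⟨hv, hu, h.symm⟩
  · rintro ⟨hu, hv, h⟩; exact ⟨hv, hu, h.symm⟩

open Classical in
theorem rowDeg_ofFn (i : Fin n) :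
    rowDeg (List.ofFn fun j => decide (G.Adj i j)) = G.degree i := by
  unfold rowDeg
  rw [List.ofFn_eq_map, List.filter_map, List.length_map]
  have h1 : ((List.finRange n).filter ((fun x => x) ∘ fun j => decide (G.Adj i j))).length =
      ((List.finRange n).filter ((fun x => x) ∘ fun j => decide (G.Adj i j))).toFinset.card :=
    (List.toFinset_card_of_nodup ((List.nodup_finRange n).filter _)).symm
  rw [h1, ← SimpleGraph.card_neighborFinset_eq_degree]
  congr 1
  ext j
  simp

open Classical in
theorem length_nb_le (v : ℕ) : (nb (adjMatrix G) v).length ≤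
    if h : v < n then G.degree ⟨v, h⟩ else 0 := by
  unfold nb
  rw [length_adjMatrix]
  split_ifs with h
  · have h1 : ((List.range n).filter fun x => adj (adjMatrix G) v x).length =
        ((List.range n).filter fun x => adj (adjMatrix G) v x).toFinset.card :=
      (List.toFinset_card_of_nodup (List.nodup_range.filter _)).symm
    rw [h1, ← SimpleGraph.card_neighborFinset_eq_degree]
    have h2 : ((List.range n).filter fun x => adj (adjMatrix G) v x).toFinset ⊆
        Finset.image (fun j : Fin n => j.val) (G.neighborFinset ⟨v, h⟩) := by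
      intro x hx
      rw [List.mem_toFinset, List.mem_filter, adj_adjMatrix] at hx
      obtain ⟨_, _, hx', h3⟩ := hx
      rw [Finset.mem_image]
      exact ⟨⟨x, hx'⟩, by rw [SimpleGraph.mem_neighborFinset]; exact h3, rfl⟩
    exact (Finset.card_le_card h2).trans Finset.card_image_le
  · rw [Nat.le_zero, List.length_eq_zero_iff, List.filter_eq_nil_iff]
    intro x _ hx
    rw [adj_adjMatrix] at hx
    exact h hx.1

open Classical in
theorem dg_spec (hn : 1 ≤ n) : dg (adjMatrix G) ≤ max 1 G.maxDegree ∧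
    (∀ v, (nb (adjMatrix G) v).length ≤ dg (adjMatrix G)) ∧ dg (adjMatrix G) ≤ n := by
  have hmax : G.maxDegree < n := by
    haveI : Nonempty (Fin n) := ⟨⟨0, hn⟩⟩
    simpa using G.maxDegree_lt_card_verts
  have hp : ∀ d, ((adjMatrix G).all fun row => decide (rowDeg row ≤ d)) = true ↔
      ∀ i, G.degree i ≤ d := by
    intro d
    rw [List.all_eq_true]
    unfold adjMatrix
    constructor
    · intro h i
      have h1 := h (List.ofFn fun j => decide (G.Adj i j))
        ((List.mem_ofFn' _ _).2 ⟨i, rfl⟩)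
      rw [rowDeg_ofFn] at h1
      simpa using h1
    · intro h row hrow
      obtain ⟨i, rfl⟩ := (List.mem_ofFn' _ _).1 hrow
      simp only [rowDeg_ofFn]
      simpa using h i
  have h1 : ∃ d, ((List.range ((adjMatrix G).length + 1)).filter fun d =>
      (adjMatrix G).all fun row => decide (rowDeg row ≤ d)).head? = some d ∧
      (∀ i, G.degree i ≤ d) ∧ d ≤ G.maxDegree := by
    rw [List.head?_filter]
    cases h : (List.range ((adjMatrix G).length + 1)).find? fun d =>
      (adjMatrix G).all fun row => decide (rowDeg row ≤ d) with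
    | none =>
      rw [List.find?_range_eq_none] at h
      have h2 := h G.maxDegree (by rw [length_adjMatrix]; omega)
      have h3 := (hp G.maxDegree).2 (fun i => G.degree_le_maxDegree i)
      rw [h3] at h2
      simp at h2
    | some d =>
      rw [List.find?_range_eq_some] at h
      obtain ⟨h2, _, h3⟩ := h
      refine ⟨d, rfl, (hp d).1 h2, ?_⟩
      by_contra hlt
      push Not at hlt
      have h4 := h3 G.maxDegree hlt
      have h5 := (hp G.maxDegree).2 (fun i => G.degree_le_maxDegree i)
      rw [h5] at h4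
      simp at h4
  obtain ⟨d, h2, h3, h4⟩ := h1
  have h5 : dg (adjMatrix G) = max 1 d := by
    unfold dg
    rw [h2]
    rfl
  rw [h5]
  refine ⟨max_le_max le_rfl h4, ?_, ?_⟩
  · intro v
    refine (length_nb_le G v).trans ?_
    split_ifs with h
    · exact (h3 _).trans (le_max_right _ _)
    · exact Nat.zero_le _
  · exact max_le hn (by omega)

theorem one_le_dg (Mx : Mat) : 1 ≤ dg Mx := le_max_left _ _

theorem two_pow_bb (Mx : Mat) : 64 * dg Mx ^ 2 ≤ 2 ^ bb Mx ∧ 2 ^ bb Mx ≤ 256 * dg Mx ^ 2 := by
  have h1 : bb Mx = 6 + 2 * (dg Mx).size := by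
    unfold bb
    rw [← Nat.size_eq_bits_len]
  have h2 : 2 ^ bb Mx = 64 * (2 ^ (dg Mx).size) ^ 2 := by
    rw [h1, pow_add, ← pow_mul, mul_comm (dg Mx).size 2]
    norm_num
  rw [h2]
  constructor
  · exact Nat.mul_le_mul_left _ (Nat.pow_le_pow_left (Nat.lt_size_self _).le 2)
  · have h3 : 0 < (dg Mx).size := Nat.size_pos.2 (one_le_dg Mx)
    have h4 : 2 ^ ((dg Mx).size - 1) ≤ dg Mx := Nat.lt_size.1 (by omega)
    have h5 : 2 ^ (dg Mx).size = 2 * 2 ^ ((dg Mx).size - 1) := by
      obtain ⟨m, hm⟩ : ∃ m, (dg Mx).size = m + 1 := ⟨(dg Mx).size - 1, by omega⟩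
      rw [hm, Nat.add_sub_cancel, pow_succ, mul_comm]
    rw [h5]
    have h6 : (2 * 2 ^ ((dg Mx).size - 1)) ^ 2 ≤ (2 * dg Mx) ^ 2 :=
      Nat.pow_le_pow_left (Nat.mul_le_mul_left _ h4) 2
    calc 64 * (2 * 2 ^ ((dg Mx).size - 1)) ^ 2 ≤ 64 * (2 * dg Mx) ^ 2 := Nat.mul_le_mul_left _ h6
      _ = 256 * dg Mx ^ 2 := by ring

theorem bb_le (Mx : Mat) : bb Mx ≤ 6 + 2 * dg Mx := by
  unfold bb
  rw [Nat.size_eq_bits_len]
  have := NPC.Poly.size_le_self (dg Mx)
  omega

end Matrix

theorem valB_inj : ∀ {l l' : List Bool}, l.length = l'.length → valB l = valB l' → l = l' := by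
  intro l
  induction l with
  | nil =>
    intro l' h _
    exact (List.length_eq_zero_iff.1 h.symm).symm
  | cons b l ih =>
    intro l' h1 h2
    cases l' with
    | nil => simp at h1
    | cons b' l' =>
      rw [valB_cons, valB_cons] at h2
      have h3 : b = b' := by
        cases b <;> cases b' <;> simp at h2 ⊢ <;> omega
      subst h3
      rw [ih (by simpa using h1) (by omega)]

/-- The colouring produced with random bits `r`. -/
noncomputable def colr {n p : ℕ} (G : SimpleGraph (Fin n)) (r : Fin p → Bool) (v : Fin n) : ℕ :=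
  valB ((cols (stateOf (adjMatrix G) (List.ofFn r) (hist (adjMatrix G) r))).getD v.1 [])

theorem alg_eq {n p : ℕ} (G : SimpleGraph (Fin n)) (r : Fin p → Bool) :
    alg (adjMatrix G, List.ofFn r) = List.ofFn (colr G r) := by
  obtain ⟨_, _, _, h, _⟩ := hist_spec (Mx := adjMatrix G) r
  unfold alg
  simp only
  rw [h]
  apply List.ext_getElem
  · simp [cols, stateOf, length_adjMatrix]
  · intro i h1 h2
    rw [List.getElem_map, List.getElem_ofFn]
    unfold colr
    rw [List.getD_eq_getElem?_getD, List.getElem?_eq_getElem (by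
      rw [List.length_map] at h1
      exact h1)]
    rfl

theorem colr_lt {n p : ℕ} (G : SimpleGraph (Fin n)) (r : Fin p → Bool) (v : Fin n) :
    colr G r v < 2 ^ bb (adjMatrix G) := by
  obtain ⟨h1, _⟩ := hist_spec (Mx := adjMatrix G) r
  unfold colr
  rw [cols_stateOf (by rw [length_adjMatrix]; exact v.2) h1]
  refine lt_of_lt_of_le (valB_lt _) ?_
  simp

theorem colr_inj {n p : ℕ} (G : SimpleGraph (Fin n)) (r : Fin p → Bool) (u v : Fin n)
    (h : colr G r u = colr G r v) :
    (cols (stateOf (adjMatrix G) (List.ofFn r) (hist (adjMatrix G) r))).getD u.1 [] =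
    (cols (stateOf (adjMatrix G) (List.ofFn r) (hist (adjMatrix G) r))).getD v.1 [] := by
  obtain ⟨h1, _⟩ := hist_spec (Mx := adjMatrix G) r
  unfold colr at h
  refine valB_inj ?_ h
  rw [cols_stateOf (by rw [length_adjMatrix]; exact u.2) h1,
    cols_stateOf (by rw [length_adjMatrix]; exact v.2) h1]
  simp

theorem isChain_map_val {n : ℕ} {G : SimpleGraph (Fin n)} {l : List (Fin n)}
    (h : l.IsChain G.Adj) :
    (l.map Fin.val).IsChain (fun a b => adj (adjMatrix G) a b = true) := by
  rw [List.isChain_map]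
  refine h.imp ?_
  intro a b hab
  rw [adj_adjMatrix]
  exact ⟨a.2, b.2, hab⟩

theorem colr_nonrep {n p : ℕ} (G : SimpleGraph (Fin n)) (r : Fin p → Bool)
    (h1 : (hist (adjMatrix G) r).length ≠ Tn (adjMatrix G).length)
    (h2 : ∀ i ∈ List.range ((adjMatrix G).length + 1),
      (lev (adjMatrix G) (cols (stateOf (adjMatrix G) (List.ofFn r) (hist (adjMatrix G) r))) i).length ≤
        (adjMatrix G).length * (adjMatrix G).length * (adjMatrix G).length) :
    Nonrepetitive G (colr G r) := by
  intro l₁ l₂ hne hlen hnd hch heq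
  obtain ⟨h3, _, _, _, h4⟩ := hist_spec (Mx := adjMatrix G) r
  have hdet := h4 (lt_of_le_of_ne h3 h1)
  set Mx := adjMatrix G with hMx
  set c := cols (stateOf Mx (List.ofFn r) (hist Mx r)) with hc
  have hlenM : Mx.length = n := length_adjMatrix G
  have hne2 : l₂ ≠ [] := by
    rintro rfl
    exact hne (List.length_eq_zero_iff.1 hlen)
  obtain ⟨w, l₂', rfl⟩ := List.exists_cons_of_ne_nil hne2
  have hrev : l₁.reverse ≠ [] := by simpa using hne
  obtain ⟨a, m₁, hm₁⟩ := List.exists_cons_of_ne_nil hrev
  obtain ⟨M₁, hM₁⟩ : ∃ M, M = l₁.reverse.map Fin.val := ⟨_, rfl⟩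
  obtain ⟨M₂, hM₂⟩ : ∃ M, M = (w :: l₂').reverse.map Fin.val := ⟨_, rfl⟩
  have hL : M₁.length = M₂.length := by
    rw [hM₁, hM₂, List.length_map, List.length_map, List.length_reverse, List.length_reverse, hlen]
  have hgood : Good Mx w.1 (M₁.zip M₂) := by
    refine good_zip M₁ M₂ w.1 hL ?_ ?_ ?_ ?_ ?_
    · rw [hM₂, List.reverse_cons, List.map_append]
      simp
    · rw [hM₁, List.map_reverse, List.isChain_reverse]
      exact isChain_map_val hch.left_of_append
    · rw [hM₂, List.map_reverse, List.isChain_reverse]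
      exact isChain_map_val hch.right_of_append
    · rw [hM₁, hM₂, ← List.map_append]
      refine List.Nodup.map Fin.val_injective ?_
      rw [List.nodup_append] at hnd ⊢
      refine ⟨List.nodup_reverse.2 hnd.1, List.nodup_reverse.2 hnd.2.1, ?_⟩
      intro x hx y hy
      exact hnd.2.2 x (List.mem_reverse.1 hx) y (List.mem_reverse.1 hy)
    · intro x hx
      rw [hlenM]
      rw [List.mem_append, hM₁, hM₂, List.mem_map, List.mem_map] at hx
      rcases hx with ⟨y, _, rfl⟩ | ⟨y, _, rfl⟩
      · exact y.2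
      · exact y.2
  have hmt : mt c (w.1, M₁.zip M₂) = true := by
    unfold mt
    rw [List.all_eq_true]
    intro e he
    rw [decide_eq_true_iff]
    simp only at he
    obtain ⟨i, hi, hie⟩ := List.getElem_of_mem he
    rw [List.getElem_zip] at hie
    have e1 : M₁.length = l₁.reverse.length := by rw [hM₁, List.length_map]
    have e2 : M₂.length = (w :: l₂').reverse.length := by rw [hM₂, List.length_map]
    have e3 := hi
    rw [List.length_zip] at e3
    have hi1 : i < l₁.reverse.length := by omega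
    have hi2 : i < (w :: l₂').reverse.length := by omega
    have h5 : e = ((l₁.reverse[i]).1, ((w :: l₂').reverse[i]).1) := by
      subst hM₁
      subst hM₂
      rw [← hie, List.getElem_map, List.getElem_map]
    rw [h5]
    simp only
    apply colr_inj G r
    have h6 : l₁.reverse.map (colr G r) = (w :: l₂').reverse.map (colr G r) := by
      rw [List.map_reverse, List.map_reverse, heq]
    have h7 : (l₁.reverse.map (colr G r))[i]'(by rw [List.length_map]; exact hi1) =
        ((w :: l₂').reverse.map (colr G r))[i]'(by rw [List.length_map]; exact hi2) := by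
      simp only [h6]
    rw [List.getElem_map, List.getElem_map] at h7
    exact h7
  have hBl : (M₁.zip M₂).length ≤ Mx.length := by
    have h5 := hgood.bd
    have h6 : (verts (M₁.zip M₂)).toFinset ⊆ Finset.range Mx.length := by
      intro x hx
      rw [List.mem_toFinset] at hx
      exact Finset.mem_range.2 (h5.2 x hx)
    have h7 := Finset.card_le_card h6
    rw [List.toFinset_card_of_nodup h5.1, Finset.card_range, length_verts] at h7
    omega
  have hhit := det_none hdet (fun j hj => h2 j (List.mem_range.2 (by omega))) hgood hmt hBl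
  have hhit2 : hitb Mx (w.1, M₁.zip M₂) = true := by
    unfold hitb
    simp only
    have h5 : M₁ = a.1 :: m₁.map Fin.val := by rw [hM₁, hm₁, List.map_cons]
    have h6 : ∃ y ys, M₂ = y :: ys := by
      have : M₂ ≠ [] := by rw [hM₂]; simp
      exact List.exists_cons_of_ne_nil this
    obtain ⟨y, ys, h6⟩ := h6
    rw [h5, h6, List.zip_cons_cons]
    simp only [List.head?_cons, Option.getD_some]
    rw [adj_adjMatrix]
    refine ⟨a.2, w.2, ?_⟩
    rw [List.isChain_append] at hch
    have h7 := hch.2.2 a (by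
      have : l₁ = m₁.reverse ++ [a] := by
        rw [← List.reverse_cons, ← hm₁, List.reverse_reverse]
      rw [this]
      simp) w (by simp)
    exact h7
  rw [hhit] at hhit2
  exact absurd hhit2 (by simp)

/-- The number of random bits. -/
noncomputable def qpoly : Polynomial ℕ :=
  Polynomial.X * (Polynomial.X * (Polynomial.C 2 * Polynomial.X + 1) + 1) *
    (Polynomial.C 6 + Polynomial.C 2 * Polynomial.X)

theorem qpoly_eval (n : ℕ) : qpoly.eval n = n * (n * (2 * n + 1) + 1) * (6 + 2 * n) := by
  simp [qpoly]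

theorem hyp_adjMatrix {n : ℕ} (hn : 1 ≤ n) (G : SimpleGraph (Fin n)) :
    Hyp (adjMatrix G) (dg (adjMatrix G)) (qpoly.eval n) where
  hn := by rw [length_adjMatrix]; exact hn
  hsym := adj_symm G
  hD1 := one_le_dg _
  hD := (dg_spec G hn).2.1
  hb := (two_pow_bb _).1
  hp := by
    rw [length_adjMatrix, qpoly_eval]
    unfold Tn
    refine Nat.mul_le_mul_left _ ((bb_le _).trans ?_)
    have := (dg_spec G hn).2.2
    omega

open Classical in
theorem monteCarlo : ∃ (C : ℕ) (F : List Bool → List Bool) (q : Polynomial ℕ), PolyTime F ∧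
    ∀ (n : ℕ), 1 ≤ n → ∀ G : SimpleGraph (Fin n),
      (1 : ℝ) - 1 / n ≤ (Nat.card {r : Fin (q.eval n) → Bool // ∃ c : Fin n → ℕ,
        F (bits (adjMatrix G, List.ofFn r)) = bits (List.ofFn c) ∧
        (∀ v, c v < C * (max 1 G.maxDegree) ^ 2) ∧ Nonrepetitive G c} : ℝ) / 2 ^ (q.eval n) := by
  have hpoly : NPC.Poly (fun x : List Bool => ((unbits (Mat × List Bool) x).map alg).getD []) :=
    NPC.Poly.optGetD (NPC.Poly.optMap_fp (h := fun _ a => alg a) poly_unbits
      (poly_alg.comp (NPC.Poly.snd NPC.Poly.id))) (NPC.Poly.const [])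
  refine ⟨256, fun x => bits (((unbits (Mat × List Bool) x).map alg).getD []), qpoly,
    polyTime_bits hpoly, ?_⟩
  intro n hn G
  have hyp := hyp_adjMatrix hn G
  have hbad := hyp.bad
  rw [length_adjMatrix] at hbad
  have hnpos : (0 : ℝ) < n := by exact_mod_cast hn
  set p := qpoly.eval n with hp
  set Q : (Fin p → Bool) → Prop := fun r => ∃ c : Fin n → ℕ,
        bits (((unbits (Mat × List Bool) (bits (adjMatrix G, List.ofFn r))).map alg).getD []) =
          bits (List.ofFn c) ∧
        (∀ v, c v < 256 * (max 1 G.maxDegree) ^ 2) ∧ Nonrepetitive G c with hQ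
  have hgood : ∀ r : Fin p → Bool, ¬ ((hist (adjMatrix G) r).length = Tn n ∨
      ∃ i ∈ List.range (n + 1), n * n * n <
      (lev (adjMatrix G) (cols (stateOf (adjMatrix G) (List.ofFn r)
        (hist (adjMatrix G) r))) i).length) → Q r := by
    intro r hr
    push Not at hr
    refine ⟨colr G r, ?_, ?_, ?_⟩
    · rw [unbits_bits]
      simp only [Option.map_some, Option.getD_some]
      rw [alg_eq]
    · intro v
      refine lt_of_lt_of_le (colr_lt G r v) ((two_pow_bb _).2.trans ?_)
      exact Nat.mul_le_mul_left _ (Nat.pow_le_pow_left (dg_spec G hn).1 2)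
    · apply colr_nonrep
      · rw [length_adjMatrix]; exact hr.1
      · rw [length_adjMatrix]; exact hr.2
  have h1 : (2 : ℝ) ^ p ≤ nr Q + nr (fun r : Fin p → Bool =>
      (hist (adjMatrix G) r).length = Tn n ∨
      ∃ i ∈ List.range (n + 1), n * n * n <
      (lev (adjMatrix G) (cols (stateOf (adjMatrix G) (List.ofFn r)
        (hist (adjMatrix G) r))) i).length) := by
    refine le_trans ?_ (nr_or _ _)
    have h2 : nr (fun _ : Fin p → Bool => True) = (2 : ℝ) ^ p := by
      rw [nr_eq, Finset.filter_true]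
      simp
    rw [← h2]
    refine nr_mono fun r _ => ?_
    by_cases hr : (hist (adjMatrix G) r).length = Tn n ∨
      ∃ i ∈ List.range (n + 1), n * n * n <
      (lev (adjMatrix G) (cols (stateOf (adjMatrix G) (List.ofFn r)
        (hist (adjMatrix G) r))) i).length
    · exact Or.inr hr
    · exact Or.inl (hgood r hr)
  have h2 : nr Q = (Nat.card {r : Fin p → Bool // Q r} : ℝ) := by
    rw [nr_eq, Nat.card_eq_fintype_card, Fintype.card_subtype]
  rw [h2] at h1
  rw [le_div_iff₀ (by positivity)]
  have h3 : ((1 : ℝ) - 1 / n) * 2 ^ p = 2 ^ p - 2 ^ p * (1 / n) := by ring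
  rw [h3]
  linarith

end Pool.Agent.N597.NR
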