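import Pool.Agent.N597.NR.Count
set_option autoImplicit false

/-!
# Histories of resampling and their codes
-/

namespace Pool.Agent.N597.NR

/-- A piece: a list of pairs of vertices (which should have equal colours). -/
abbrev Pc : Type := List (ℕ × ℕ)

/-- The vertices of a piece. -/
def verts (A : Pc) : List ℕ := A.map Prod.fst ++ A.map Prod.snd

theorem verts_cons (e : ℕ × ℕ) (A : Pc) (v : ℕ) :
    v ∈ verts (e :: A) ↔ v = e.1 ∨ v = e.2 ∨ v ∈ verts A := by
  simp only [verts, List.map_cons, List.mem_append, List.mem_cons]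
  tauto

theorem length_verts (A : Pc) : (verts A).length = 2 * A.length := by
  simp [verts]; omega

/-- How many pieces of the history contain the vertex. -/
def cnt (H : List Pc) (v : ℕ) : ℕ := H.countP (fun A => decide (v ∈ verts A))

@[simp] theorem cnt_nil (v : ℕ) : cnt [] v = 0 := rfl

theorem cnt_cons (A : Pc) (H : List Pc) (v : ℕ) :
    cnt (A :: H) v = cnt H v + if v ∈ verts A then 1 else 0 := by
  unfold cnt
  rw [List.countP_cons]
  simp

theorem cnt_append (H H' : List Pc) (v : ℕ) : cnt (H ++ H') v = cnt H v + cnt H' v := by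
  unfold cnt
  rw [List.countP_append]

theorem cnt_le_length (H : List Pc) (v : ℕ) : cnt H v ≤ H.length := List.countP_le_length

theorem cnt_perm {H H' : List Pc} (h : H.Perm H') (v : ℕ) : cnt H v = cnt H' v :=
  h.countP_eq _

/-- The position of bit `i` of the colour number `j` of the vertex `v`. -/
def pos (M b v j i : ℕ) : ℕ := (v * M + j) * b + i

theorem pos_inj {M b v j i v' j' i' : ℕ} (hj : j < M) (hj' : j' < M) (hi : i < b) (hi' : i' < b)
    (h : pos M b v j i = pos M b v' j' i') : v = v' ∧ j = j' ∧ i = i' := by
  unfold pos at h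
  have hb : 0 < b := by omega
  have hM : 0 < M := by omega
  have h1 : (v * M + j) = (v' * M + j') := by
    have e1 : ((v * M + j) * b + i) / b = v * M + j := by
      rw [mul_comm, Nat.mul_add_div hb, Nat.div_eq_of_lt hi, add_zero]
    have e2 : ((v' * M + j') * b + i') / b = v' * M + j' := by
      rw [mul_comm, Nat.mul_add_div hb, Nat.div_eq_of_lt hi', add_zero]
    rw [← e1, ← e2, h]
  have h2 : i = i' := by
    rw [h1] at h
    omega
  have h3 : v = v' := by
    have e1 : (v * M + j) / M = v := by
      rw [mul_comm, Nat.mul_add_div hM, Nat.div_eq_of_lt hj, add_zero]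
    have e2 : (v' * M + j') / M = v' := by
      rw [mul_comm, Nat.mul_add_div hM, Nat.div_eq_of_lt hj', add_zero]
    rw [← e1, ← e2, h1]
  refine ⟨h3, ?_, h2⟩
  rw [h3] at h1
  omega

theorem pos_lt {n M b v j i : ℕ} (hv : v < n) (hj : j < M) (hi : i < b) :
    pos M b v j i < n * M * b := by
  unfold pos
  have h1 : v * M + j < n * M := by
    calc v * M + j < v * M + M := by omega
      _ = (v + 1) * M := by ring
      _ ≤ n * M := Nat.mul_le_mul_right _ hv
  calc (v * M + j) * b + i < (v * M + j) * b + b := by omega
    _ = (v * M + j + 1) * b := by ring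
    _ ≤ n * M * b := Nat.mul_le_mul_right _ h1

/-- The equations between bits saying that the two vertices of every pair have the same colour. -/
def eqs (M b : ℕ) (c : ℕ → ℕ) (A : Pc) : List (ℕ × ℕ) :=
  A.flatMap fun e => (List.range b).map fun i => (pos M b e.1 (c e.1) i, pos M b e.2 (c e.2) i)

theorem length_eqs (M b : ℕ) (c : ℕ → ℕ) (A : Pc) : (eqs M b c A).length = b * A.length := by
  unfold eqs
  induction A with
  | nil => simp
  | cons e A ih =>
    rw [List.flatMap_cons, List.length_append, ih]
    simp; ring

theorem eqs_congr {M b : ℕ} {c c' : ℕ → ℕ} {A : Pc} (h : ∀ v ∈ verts A, c v = c' v) :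
    eqs M b c A = eqs M b c' A := by
  induction A with
  | nil => rfl
  | cons e A ih =>
    unfold eqs at *
    rw [List.flatMap_cons, List.flatMap_cons, ih (fun v hv => h v ((verts_cons e A v).2 (by tauto))),
      h e.1 ((verts_cons e A _).2 (by tauto)), h e.2 ((verts_cons e A _).2 (by tauto))]

theorem mem_eqs {M b : ℕ} {c : ℕ → ℕ} {A : Pc} {x : ℕ × ℕ} (h : x ∈ eqs M b c A) :
    ∃ e ∈ A, ∃ i < b, x = (pos M b e.1 (c e.1) i, pos M b e.2 (c e.2) i) := by
  unfold eqs at h
  rw [List.mem_flatMap] at h
  obtain ⟨e, he, h⟩ := h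
  rw [List.mem_map] at h
  obtain ⟨i, hi, rfl⟩ := h
  exact ⟨e, he, i, List.mem_range.1 hi, rfl⟩

/-- All equations of a history: at the time when a piece was resampled, its pairs had the same
colours. The history is listed backwards: the last resampled piece comes first. -/
def alleqs (M b : ℕ) : List Pc → List (ℕ × ℕ)
  | [] => []
  | A :: H => eqs M b (cnt H) A ++ alleqs M b H

theorem mem_alleqs {M b : ℕ} {H : List Pc} {x : ℕ × ℕ} (h : x ∈ alleqs M b H) :
    ∃ v j v' j' i, x = (pos M b v j i, pos M b v' j' i) ∧ j < cnt H v ∧ j' < cnt H v' ∧ i < b ∧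
      ∃ A ∈ H, v ∈ verts A ∧ v' ∈ verts A := by
  induction H with
  | nil => simp [alleqs] at h
  | cons A H ih =>
    rw [alleqs, List.mem_append] at h
    rcases h with h | h
    · obtain ⟨e, he, i, hi, rfl⟩ := mem_eqs h
      have h1 : e.1 ∈ verts A := by
        unfold verts; rw [List.mem_append]; left; exact List.mem_map_of_mem he
      have h2 : e.2 ∈ verts A := by
        unfold verts; rw [List.mem_append]; right; exact List.mem_map_of_mem he
      refine ⟨e.1, cnt H e.1, e.2, cnt H e.2, i, rfl, ?_, ?_, hi, A, by simp, h1, h2⟩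
      · rw [cnt_cons, if_pos h1]; omega
      · rw [cnt_cons, if_pos h2]; omega
    · obtain ⟨v, j, v', j', i, h1, h2, h3, h4, B, hB, h5, h6⟩ := ih h
      refine ⟨v, j, v', j', i, h1, ?_, ?_, h4, B, List.mem_cons_of_mem _ hB, h5, h6⟩
      · rw [cnt_cons]; omega
      · rw [cnt_cons]; omega

theorem fresh_append {E E' : List (ℕ × ℕ)} (h : Fresh E) (h' : Fresh E')
    (hh : ∀ e ∈ E, ∀ e' ∈ E', e.2 ≠ e'.1 ∧ e.2 ≠ e'.2) : Fresh (E ++ E') := by
  refine ⟨fun e he => ?_, List.pairwise_append.2 ⟨h.2, h'.2, hh⟩⟩
  rcases List.mem_append.1 he with he | he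
  · exact h.1 e he
  · exact h'.1 e he

theorem nodup_verts_cons {e : ℕ × ℕ} {A : Pc} (h : (verts (e :: A)).Nodup) :
    e.2 ≠ e.1 ∧ e.1 ∉ verts A ∧ e.2 ∉ verts A ∧ (verts A).Nodup := by
  unfold verts at *
  simp only [List.map_cons, List.cons_append, List.nodup_cons, List.mem_append, List.mem_cons,
    not_or] at h ⊢
  rw [List.nodup_append] at h
  obtain ⟨⟨h1, h2, h3⟩, h4, h5, h6⟩ := h
  rw [List.nodup_cons] at h5
  refine ⟨fun h => h2 h.symm, ⟨h1, h3⟩, ⟨?_, h5.1⟩, ?_⟩
  · intro h7
    exact h6 _ h7 _ (by simp) rfl
  · rw [List.nodup_append]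
    exact ⟨h4, h5.2, fun a ha b hb => h6 a ha b (List.mem_cons_of_mem _ hb)⟩

theorem fresh_eqs {M b : ℕ} {c : ℕ → ℕ} : ∀ {A : Pc}, (verts A).Nodup →
    (∀ v ∈ verts A, c v < M) → Fresh (eqs M b c A) := by
  intro A
  induction A with
  | nil => intro _ _; exact ⟨by simp [eqs], by simp [eqs]⟩
  | cons e A ih =>
    intro hA hc
    obtain ⟨h1, h2, h3, h4⟩ := nodup_verts_cons hA
    have hc1 : c e.1 < M := hc _ ((verts_cons e A _).2 (by tauto))
    have hc2 : c e.2 < M := hc _ ((verts_cons e A _).2 (by tauto))
    have hcA : ∀ v ∈ verts A, c v < M := fun v hv => hc _ ((verts_cons e A _).2 (by tauto))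
    have ih' := ih h4 hcA
    unfold eqs at *
    rw [List.flatMap_cons]
    refine fresh_append ⟨?_, ?_⟩ ih' ?_
    · intro x hx
      rw [List.mem_map] at hx
      obtain ⟨i, hi, rfl⟩ := hx
      intro h
      exact h1 (pos_inj hc2 hc1 (List.mem_range.1 hi) (List.mem_range.1 hi) h).1
    · rw [List.pairwise_map]
      refine List.Pairwise.imp_of_mem (R := fun x y => x ≠ y) ?_ (List.nodup_range (n := b))
      intro i j hi hj hij
      constructor
      · intro h
        exact h1 (pos_inj hc2 hc1 (List.mem_range.1 hi) (List.mem_range.1 hj) h).1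
      · intro h
        exact hij (pos_inj hc2 hc2 (List.mem_range.1 hi) (List.mem_range.1 hj) h).2.2
    · intro x hx y hy
      rw [List.mem_map] at hx
      obtain ⟨i, hi, rfl⟩ := hx
      obtain ⟨e', he', j, hj, rfl⟩ := mem_eqs (M := M) (b := b) (c := c) hy
      have h5 : e'.1 ∈ verts A := by
        unfold verts; rw [List.mem_append]; left; exact List.mem_map_of_mem he'
      have h6 : e'.2 ∈ verts A := by
        unfold verts; rw [List.mem_append]; right; exact List.mem_map_of_mem he'
      constructor
      · intro h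
        have := (pos_inj hc2 (hcA _ h5) (List.mem_range.1 hi) hj h).1
        rw [this] at h3
        exact h3 h5
      · intro h
        have := (pos_inj hc2 (hcA _ h6) (List.mem_range.1 hi) hj h).1
        rw [this] at h3
        exact h3 h6

theorem fresh_alleqs {M b : ℕ} : ∀ {H : List Pc}, (∀ A ∈ H, (verts A).Nodup) → H.length ≤ M →
    Fresh (alleqs M b H) := by
  intro H
  induction H with
  | nil => intro _ _; exact ⟨by simp [alleqs], by simp [alleqs]⟩
  | cons A H ih =>
    intro hA hM
    rw [List.length_cons] at hM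
    have hc : ∀ v, cnt H v < M := fun v => lt_of_le_of_lt (cnt_le_length H v) (by omega)
    refine fresh_append (fresh_eqs (hA A (by simp)) (fun v _ => hc v))
      (ih (fun B hB => hA B (List.mem_cons_of_mem _ hB)) (by omega)) ?_
    intro x hx y hy
    obtain ⟨e, he, i, hi, rfl⟩ := mem_eqs hx
    obtain ⟨v, j, v', j', i', rfl, h1, h2, h3, _⟩ := mem_alleqs hy
    constructor
    · intro h
      obtain ⟨h4, h5, _⟩ := pos_inj (hc _) (lt_trans h1 (hc _)) hi h3 h
      rw [← h4, ← h5] at h1
      exact lt_irrefl _ h1
    · intro h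
      obtain ⟨h4, h5, _⟩ := pos_inj (hc _) (lt_trans h2 (hc _)) hi h3 h
      rw [← h4, ← h5] at h2
      exact lt_irrefl _ h2

/-- The number of equations. -/
theorem length_alleqs (M b : ℕ) (H : List Pc) :
    (alleqs M b H).length = b * (H.map List.length).sum := by
  induction H with
  | nil => simp [alleqs]
  | cons A H ih =>
    rw [alleqs, List.length_append, length_eqs, ih, List.map_cons, List.sum_cons]
    ring

/-- The vertices of the piece are smaller than `n`. -/
def Bd (n : ℕ) (A : Pc) : Prop := (verts A).Nodup ∧ ∀ v ∈ verts A, v < n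

theorem count_pass {n M b p : ℕ} {H : List Pc} (hH : ∀ A ∈ H, Bd n A) (hM : H.length ≤ M)
    (hp : n * M * b ≤ p) :
    (Finset.univ.filter (fun r : Fin p → Bool => Sat r (alleqs M b H))).card *
      2 ^ (b * (H.map List.length).sum) = 2 ^ p := by
  rw [← length_alleqs M b H]
  refine count_sat _ (fresh_alleqs (fun A hA => (hH A hA).1) hM) ?_
  intro x hx
  obtain ⟨v, j, v', j', i, rfl, h1, h2, h3, A, hA, h4, h5⟩ := mem_alleqs hx
  have h6 := cnt_le_length H v
  have h7 := cnt_le_length H v'
  exact ⟨lt_of_lt_of_le (pos_lt ((hH A hA).2 _ h4) (by omega) h3) hp,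
    lt_of_lt_of_le (pos_lt ((hH A hA).2 _ h5) (by omega) h3) hp⟩

/-! ### Passing -/

theorem sat_append {p : ℕ} {r : Fin p → Bool} {E E' : List (ℕ × ℕ)} :
    Sat r (E ++ E') ↔ Sat r E ∧ Sat r E' := by
  unfold Sat
  rw [List.forall_mem_append]

theorem sat_alleqs_cons {p M b : ℕ} {r : Fin p → Bool} {A : Pc} {H : List Pc} :
    Sat r (alleqs M b (A :: H)) ↔ Sat r (eqs M b (cnt H) A) ∧ Sat r (alleqs M b H) := by
  rw [alleqs, sat_append]

/-- `A` and `B` have no common vertex. -/
def Dj (A B : Pc) : Prop := ∀ v ∈ verts A, v ∉ verts B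

theorem Dj.symm {A B : Pc} (h : Dj A B) : Dj B A := fun v hv hv' => h v hv' hv

theorem sat_move {p M b : ℕ} {r : Fin p → Bool} {A : Pc} {H₂ : List Pc} :
    ∀ {H₁ : List Pc}, (∀ B ∈ H₁, Dj B A) → Sat r (alleqs M b (H₁ ++ A :: H₂)) →
      Sat r (alleqs M b (A :: (H₁ ++ H₂))) := by
  intro H₁
  induction H₁ with
  | nil => intro _ h; exact h
  | cons B H₁ ih =>
    intro hD h
    have hB : Dj B A := hD B (by simp)
    rw [List.cons_append, sat_alleqs_cons] at h
    have h1 := ih (fun C hC => hD C (List.mem_cons_of_mem _ hC)) h.2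
    rw [sat_alleqs_cons] at h1 ⊢
    refine ⟨?_, ?_⟩
    · rw [eqs_congr (c' := cnt (H₁ ++ H₂))]
      · exact h1.1
      · intro v hv
        rw [List.cons_append, cnt_cons, if_neg (fun h' => hB v h' hv), add_zero]
    · rw [List.cons_append, sat_alleqs_cons]
      refine ⟨?_, h1.2⟩
      rw [eqs_congr (c' := cnt (H₁ ++ A :: H₂))]
      · exact h.1
      · intro v hv
        rw [cnt_append, cnt_append, cnt_cons, if_neg (hB v hv)]
        omega

/-- The part of a history on which the colours of `R` depend. -/
def past (R : Finset ℕ) : List Pc → List Pc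
  | [] => []
  | A :: H => if ∃ v ∈ verts A, v ∈ R then A :: past (R ∪ (verts A).toFinset) H else past R H

theorem past_sublist : ∀ (H : List Pc) (R : Finset ℕ), (past R H).Sublist H := by
  intro H
  induction H with
  | nil => intro R; exact List.Sublist.refl _
  | cons A H ih =>
    intro R
    unfold past
    split_ifs
    · exact (ih _).cons_cons A
    · exact (ih _).cons A

theorem cnt_past : ∀ (H : List Pc) (R : Finset ℕ), ∀ v ∈ R, cnt (past R H) v = cnt H v := by
  intro H
  induction H with
  | nil => intro R v _; rfl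
  | cons A H ih =>
    intro R v hv
    unfold past
    split_ifs with h
    · rw [cnt_cons, cnt_cons, ih _ v (Finset.mem_union_left _ hv)]
    · rw [ih _ v hv, cnt_cons, if_neg, add_zero]
      intro h'
      exact h ⟨v, h', hv⟩

theorem sat_past {p M b : ℕ} {r : Fin p → Bool} : ∀ (H : List Pc) (R : Finset ℕ),
    Sat r (alleqs M b H) → Sat r (alleqs M b (past R H)) := by
  intro H
  induction H with
  | nil => intro R h; exact h
  | cons A H ih =>
    intro R h
    rw [sat_alleqs_cons] at h
    unfold past
    split_ifs with h'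
    · rw [sat_alleqs_cons]
      refine ⟨?_, ih _ h.2⟩
      rw [eqs_congr (c' := cnt H)]
      · exact h.1
      · intro v hv
        exact cnt_past _ _ v (Finset.mem_union_right _ (List.mem_toFinset.2 hv))
    · exact ih _ h.2

/-- Every piece of the history is linked to `R`. -/
def Inv (R : Finset ℕ) : List Pc → Prop
  | [] => True
  | A :: H => (∃ v ∈ verts A, v ∈ R) ∧ Inv (R ∪ (verts A).toFinset) H

theorem inv_past : ∀ (H : List Pc) (R : Finset ℕ), Inv R (past R H) := by
  intro H
  induction H with
  | nil => intro R; trivial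
  | cons A H ih =>
    intro R
    unfold past
    split_ifs with h
    · exact ⟨h, ih _⟩
    · exact ih _

theorem inv_empty {H : List Pc} (h : Inv ∅ H) : H = [] := by
  cases H with
  | nil => rfl
  | cons A H =>
    obtain ⟨⟨v, _, hv⟩, _⟩ := h
    simp at hv

theorem inv_take {v : ℕ} {A : Pc} {H₂ : List Pc} (hv : v ∈ verts A) :
    ∀ {H₁ : List Pc} {R : Finset ℕ}, (∀ B ∈ H₁, Dj B A) → Inv R (H₁ ++ A :: H₂) →
      Inv (R.erase v ∪ (verts A).toFinset) (H₁ ++ H₂) := by
  intro H₁
  induction H₁ with
  | nil =>
    intro R _ h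
    have h1 : R.erase v ∪ (verts A).toFinset = R ∪ (verts A).toFinset := by
      ext x
      simp only [Finset.mem_union, Finset.mem_erase, List.mem_toFinset]
      by_cases hx : x = v
      · subst hx; simp [hv]
      · simp [hx]
    rw [h1]
    exact h.2
  | cons B H₁ ih =>
    intro R hD h
    have hB : Dj B A := hD B (by simp)
    obtain ⟨⟨u, hu, huR⟩, h2⟩ := h
    have h3 := ih (fun C hC => hD C (List.mem_cons_of_mem _ hC)) h2
    refine ⟨⟨u, hu, ?_⟩, ?_⟩
    · rw [Finset.mem_union, Finset.mem_erase]
      left
      exact ⟨fun h => hB u hu (h ▸ hv), huR⟩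
    · have h1 : R.erase v ∪ (verts A).toFinset ∪ (verts B).toFinset =
          (R ∪ (verts B).toFinset).erase v ∪ (verts A).toFinset := by
        ext x
        simp only [Finset.mem_union, Finset.mem_erase, List.mem_toFinset]
        by_cases hx : x = v
        · subst hx; simp [hv]
        · simp only [hx, ne_eq, not_false_eq_true, true_and]; tauto
      rw [h1]
      exact h3

theorem inv_skip {v : ℕ} : ∀ {H : List Pc} {S : Finset ℕ},
    (∀ (H₁ : List Pc) (A : Pc) (H₂ : List Pc), H = H₁ ++ A :: H₂ → v ∈ verts A →
      (∀ B ∈ H₁, Dj B A) → ∃ u ∈ verts A, u ∈ S) → Inv (insert v S) H → Inv S H := by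
  intro H
  induction H with
  | nil => intro S _ _; trivial
  | cons B H ih =>
    intro S hP h
    obtain ⟨⟨u, hu, huR⟩, h2⟩ := h
    by_cases hvB : v ∈ verts B
    · refine ⟨hP [] B H rfl hvB (by simp), ?_⟩
      have h1 : insert v S ∪ (verts B).toFinset = S ∪ (verts B).toFinset := by
        ext x
        simp only [Finset.mem_union, Finset.mem_insert, List.mem_toFinset]
        by_cases hx : x = v
        · subst hx; simp [hvB]
        · simp [hx]
      rw [← h1]
      exact h2
    · refine ⟨⟨u, hu, ?_⟩, ?_⟩
      · rcases Finset.mem_insert.1 huR with h | h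
        · exact absurd (h ▸ hu) hvB
        · exact h
      · apply ih
        · intro H₁ A H₂ hH hvA hD
          by_cases hBA : Dj B A
          · obtain ⟨w, hw, hw'⟩ := hP (B :: H₁) A H₂ (by rw [hH]; rfl) hvA (by
              intro C hC
              rcases List.mem_cons.1 hC with h | h
              · rw [h]; exact hBA
              · exact hD C h)
            exact ⟨w, hw, Finset.mem_union_left _ hw'⟩
          · unfold Dj at hBA
            push Not at hBA
            obtain ⟨w, hw, hw'⟩ := hBA
            exact ⟨w, hw', Finset.mem_union_right _ (List.mem_toFinset.2 hw)⟩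
        · rw [← Finset.insert_union]
          exact h2

/-! ### Codes -/

/-- The codes of the histories on which `R` depends; `P v` lists the possible pieces at `v`. -/
def codes (P : ℕ → List Pc) : ℕ → Finset ℕ → List (List Pc)
  | 0, _ => [[]]
  | f + 1, R =>
    if h : R.Nonempty then
      codes P f (R.erase (R.min' h)) ++
        (P (R.min' h)).flatMap fun A =>
          (codes P f (R.erase (R.min' h) ∪ (verts A).toFinset)).map (fun H => A :: H)
    else [[]]

theorem exists_code {n : ℕ} {P : ℕ → List Pc} {Al : Pc → Prop} (hn : ∀ A, Al A → Bd n A)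
    (hP : ∀ A v, Al A → v ∈ verts A → A ∈ P v) :
    ∀ (f : ℕ) (R : Finset ℕ) (H : List Pc), Inv R H → (∀ A ∈ H, Al A) →
      R.card + (n + 1) * H.length ≤ f → ∃ H' ∈ codes P f R, H'.Perm H ∧
        ∀ (p M b : ℕ) (r : Fin p → Bool), Sat r (alleqs M b H) → Sat r (alleqs M b H') := by
  intro f
  induction f with
  | zero =>
    intro R H hI hA hf
    have : H = [] := by
      cases H with
      | nil => rfl
      | cons A H => simp at hf
    subst this
    exact ⟨[], by simp [codes], List.Perm.refl _, fun _ _ _ _ h => h⟩
  | succ f ih =>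
    intro R H hI hA hf
    unfold codes
    by_cases hR : R.Nonempty
    swap
    · rw [Finset.not_nonempty_iff_eq_empty] at hR
      subst hR
      have := inv_empty hI
      subst this
      rw [dif_neg (by simp)]
      exact ⟨[], by simp, List.Perm.refl _, fun _ _ _ _ h => h⟩
    · rw [dif_pos hR]
      set v := R.min' hR with hv
      have hvR : v ∈ R := R.min'_mem hR
      by_cases hdec : ∃ (H₁ : List Pc) (A : Pc) (H₂ : List Pc), H = H₁ ++ A :: H₂ ∧ v ∈ verts A ∧
          ∀ B ∈ H₁, Dj B A
      · obtain ⟨H₁, A, H₂, rfl, hvA, hD⟩ := hdec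
        have hAl : Al A := hA A (by simp)
        have hcard : (R.erase v ∪ (verts A).toFinset).card + (n + 1) * (H₁ ++ H₂).length ≤ f := by
          have h1 : (verts A).toFinset.card ≤ n := by
            have h2 : (verts A).toFinset ⊆ Finset.range n := by
              intro x hx
              rw [List.mem_toFinset] at hx
              exact Finset.mem_range.2 ((hn A hAl).2 x hx)
            exact (Finset.card_le_card h2).trans (by simp)
          have h2 := Finset.card_union_le (R.erase v) (verts A).toFinset
          have h3 := Finset.card_erase_of_mem hvR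
          have h4 : 0 < R.card := Finset.card_pos.2 hR
          rw [List.length_append, List.length_cons] at hf
          rw [List.length_append]
          have h5 : (n + 1) * (H₁.length + (H₂.length + 1)) =
            (n + 1) * (H₁.length + H₂.length) + (n + 1) := by ring
          rw [h5] at hf
          omega
        obtain ⟨H', hH', hperm, hsat⟩ := ih _ _ (inv_take hvA hD hI) (by
          intro B hB
          apply hA
          rw [List.mem_append] at hB ⊢
          rcases hB with h | h
          · exact Or.inl h
          · exact Or.inr (List.mem_cons_of_mem _ h)) hcard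
        refine ⟨A :: H', ?_, ?_, ?_⟩
        · rw [List.mem_append]
          right
          rw [List.mem_flatMap]
          exact ⟨A, hP A v hAl hvA, List.mem_map_of_mem hH'⟩
        · exact (hperm.cons A).trans List.perm_middle.symm
        · intro p M b r h
          have h1 := sat_move hD h
          rw [sat_alleqs_cons] at h1 ⊢
          refine ⟨?_, hsat _ _ _ _ h1.2⟩
          rw [eqs_congr (c' := cnt (H₁ ++ H₂))]
          · exact h1.1
          · intro v _
            exact cnt_perm hperm v
      · have hI' : Inv (R.erase v) H := by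
          apply inv_skip (v := v)
          · intro H₁ A H₂ h1 h2 h3
            exact absurd ⟨H₁, A, H₂, h1, h2, h3⟩ hdec
          · rw [Finset.insert_erase hvR]
            exact hI
        obtain ⟨H', hH', h1, h2⟩ := ih _ _ hI' hA (by
          have h3 := Finset.card_erase_of_mem hvR
          have h4 : 0 < R.card := Finset.card_pos.2 hR
          omega)
        exact ⟨H', List.mem_append_left _ hH', h1, h2⟩

theorem mem_codes {P : ℕ → List Pc} {Q : Pc → Prop} (hP : ∀ v, ∀ A ∈ P v, Q A) :
    ∀ (f : ℕ) (R : Finset ℕ), ∀ H ∈ codes P f R, ∀ A ∈ H, Q A := by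
  intro f
  induction f with
  | zero =>
    intro R H hH A hA
    simp only [codes, List.mem_singleton] at hH
    subst hH
    simp at hA
  | succ f ih =>
    intro R H hH A hA
    unfold codes at hH
    split_ifs at hH with h
    · rw [List.mem_append] at hH
      rcases hH with hH | hH
      · exact ih _ H hH A hA
      · rw [List.mem_flatMap] at hH
        obtain ⟨B, hB, hH⟩ := hH
        rw [List.mem_map] at hH
        obtain ⟨H', hH', rfl⟩ := hH
        rcases List.mem_cons.1 hA with h | h
        · rw [h]; exact hP _ B hB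
        · exact ih _ H' hH' A h
    · rw [List.mem_singleton] at hH
      subst hH
      simp at hA

/-- The weights of the codes. -/
theorem sum_codes {P : ℕ → List Pc} {W : Pc → ℝ} (hW : ∀ A, 0 ≤ W A)
    (hP : ∀ v, ((P v).map fun A => W A * 2 ^ (verts A).length).sum ≤ 1) :
    ∀ (f : ℕ) (R : Finset ℕ), ((codes P f R).map fun H => (H.map W).prod).sum ≤ 2 ^ R.card := by
  intro f
  induction f with
  | zero =>
    intro R
    simp only [codes, List.map_cons, List.map_nil, List.prod_nil, List.sum_cons, List.sum_nil,
      add_zero]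
    exact one_le_pow₀ (by norm_num)
  | succ f ih =>
    intro R
    unfold codes
    split_ifs with h
    · set v := R.min' h with hv
      have hvR : v ∈ R := R.min'_mem h
      have h3 := Finset.card_erase_of_mem hvR
      have h4 : 0 < R.card := Finset.card_pos.2 h
      rw [List.map_append, List.sum_append, List.map_flatMap]
      have h5 : ∀ l : List Pc, ((l.flatMap fun A => ((codes P f (R.erase v ∪ (verts A).toFinset)).map
          (fun H => A :: H)).map fun H => (H.map W).prod)).sum ≤
          (l.map fun A => W A * 2 ^ (verts A).length).sum * 2 ^ (R.card - 1) := by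
        intro l
        induction l with
        | nil => simp
        | cons A l ihl =>
          rw [List.flatMap_cons, List.sum_append, List.map_cons, List.sum_cons, add_mul]
          refine add_le_add ?_ ihl
          rw [List.map_map]
          have h6 : ((codes P f (R.erase v ∪ (verts A).toFinset)).map
              ((fun H : List Pc => (H.map W).prod) ∘ fun H => A :: H)).sum =
              W A * ((codes P f (R.erase v ∪ (verts A).toFinset)).map
                fun H => (H.map W).prod).sum := by
            rw [← List.sum_map_mul_left]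
            rfl
          rw [h6, mul_assoc]
          refine mul_le_mul_of_nonneg_left ((ih _).trans ?_) (hW A)
          rw [← pow_add]
          refine pow_le_pow_right₀ (by norm_num) ?_
          have h7 := Finset.card_union_le (R.erase v) (verts A).toFinset
          have h8 := List.toFinset_card_le (verts A)
          omega
      have h9 := ih (R.erase v)
      rw [h3] at h9
      have h10 := (h5 (P v)).trans (mul_le_of_le_one_left (by positivity) (hP v))
      calc _ ≤ (2 : ℝ) ^ (R.card - 1) + 2 ^ (R.card - 1) := add_le_add h9 h10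
        _ = 2 ^ R.card := by
          obtain ⟨m, hm⟩ : ∃ m, R.card = m + 1 := ⟨R.card - 1, by omega⟩
          rw [hm, Nat.add_sub_cancel, pow_succ]; ring
    · simp only [List.map_cons, List.map_nil, List.prod_nil, List.sum_cons, List.sum_nil, add_zero]
      exact one_le_pow₀ (by norm_num)

end Pool.Agent.N597.NR
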