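import Pool.Agent.N597.NR.Walks
set_option autoImplicit false

/-!
# Paths and pieces, and the search
-/

namespace Pool.Agent.N597.NR

theorem good_zip {Mx : Mat} : ∀ (m₁ m₂ : List ℕ) (w₁ : ℕ), m₁.length = m₂.length →
    m₂.getLast? = some w₁ → m₁.IsChain (fun a b => adj Mx b a = true) →
    m₂.IsChain (fun a b => adj Mx b a = true) → (m₁ ++ m₂).Nodup →
    (∀ x ∈ m₁ ++ m₂, x < Mx.length) → Good Mx w₁ (m₁.zip m₂) := by
  intro m₁
  induction m₁ with
  | nil =>
    intro m₂ w₁ h1 h2 _ _ _ _
    have : m₂ = [] := List.length_eq_zero_iff.1 h1.symm
    subst this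
    simp at h2
  | cons a m₁ ih =>
    intro m₂ w₁ h1 h2 h3 h4 h5 h6
    cases m₂ with
    | nil => simp at h1
    | cons b m₂ =>
      cases m₁ with
      | nil =>
        have : m₂ = [] := by
          simp only [List.length_cons, List.length_nil] at h1
          exact List.length_eq_zero_iff.1 (by omega)
        subst this
        simp only [List.getLast?_singleton, Option.some.injEq] at h2
        simp only [List.cons_append, List.nil_append, List.nodup_cons, List.mem_singleton] at h5
        refine ⟨h2, h5.1, h6 a (by simp), h6 b (by simp)⟩
      | cons a' m₁ =>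
        cases m₂ with
        | nil => simp at h1
        | cons b' m₂ =>
          rw [List.isChain_cons_cons] at h3 h4
          have h7 : (a' :: m₁ ++ b' :: m₂).Nodup := by
            have h8 : (a' :: m₁ ++ b :: b' :: m₂).Nodup := by
              rw [List.cons_append, List.nodup_cons] at h5
              exact h5.2
            exact h8.sublist (List.Sublist.append (List.Sublist.refl _) (List.sublist_cons_self _ _))
          have h9 : ((a' :: m₁).zip (b' :: m₂)).map Prod.fst = a' :: m₁ :=
            List.map_fst_zip (by simp only [List.length_cons] at h1 ⊢; omega)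
          have h10 : ((a' :: m₁).zip (b' :: m₂)).map Prod.snd = b' :: m₂ :=
            List.map_snd_zip (by simp only [List.length_cons] at h1 ⊢; omega)
          have h11 := ih (b' :: m₂) w₁ (by simpa using h1) (by
            rw [List.getLast?_cons_cons] at h2
            exact h2) h3.2 h4.2 h7 (by
              intro x hx
              apply h6
              rw [List.mem_append] at hx ⊢
              rcases hx with h | h
              · exact Or.inl (List.mem_cons_of_mem _ h)
              · exact Or.inr (List.mem_cons_of_mem _ h))
          have h12 : verts ((a' :: m₁).zip (b' :: m₂)) = (a' :: m₁) ++ (b' :: m₂) := by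
            unfold verts
            rw [h9, h10]
          have h13 : b ∉ (a' :: m₁) ++ (b' :: m₂) := by
            rw [List.cons_append, List.nodup_cons, List.nodup_middle, List.nodup_cons] at h5
            exact h5.2.1
          have h14 : a ∉ (a' :: m₁) ++ (b' :: m₂) ∧ a ≠ b := by
            rw [List.cons_append, List.nodup_cons] at h5
            constructor
            · intro h
              apply h5.1
              rw [List.mem_append] at h ⊢
              rcases h with h | h
              · exact Or.inl h
              · exact Or.inr (List.mem_cons_of_mem _ h)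
            · rintro rfl
              apply h5.1
              simp
          rw [List.zip_cons_cons] at h11 h12 ⊢
          rw [List.zip_cons_cons]
          refine ⟨h3.1, h4.1, h14.2, ?_, ?_, h6 a (by simp), h6 b (by simp), h11⟩
          · rw [h12]; exact h14.1
          · rw [h12]; exact h13

theorem Good.fst_chain {Mx : Mat} {w₁ : ℕ} : ∀ {B : Pc}, Good Mx w₁ B →
    (B.map Prod.fst).IsChain (fun a b => adj Mx b a = true) := by
  intro B
  induction B with
  | nil => intro _; simp
  | cons e B ih =>
    intro h
    cases B with
    | nil => simp
    | cons e' B =>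
      obtain ⟨h3, _, _, _, _, _, _, h10⟩ := h
      rw [List.map_cons, List.map_cons, List.isChain_cons_cons]
      exact ⟨h3, ih h10⟩

theorem Good.snd_chain {Mx : Mat} {w₁ : ℕ} : ∀ {B : Pc}, Good Mx w₁ B →
    (B.map Prod.snd).IsChain (fun a b => adj Mx b a = true) := by
  intro B
  induction B with
  | nil => intro _; simp
  | cons e B ih =>
    intro h
    cases B with
    | nil => simp
    | cons e' B =>
      obtain ⟨_, h3, _, _, _, _, _, h10⟩ := h
      rw [List.map_cons, List.map_cons, List.isChain_cons_cons]
      exact ⟨h3, ih h10⟩

theorem Good.last {Mx : Mat} {w₁ : ℕ} : ∀ {B : Pc}, Good Mx w₁ B →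
    (B.map Prod.snd).getLast? = some w₁ := by
  intro B
  induction B with
  | nil => intro h; exact absurd h (by simp [Good])
  | cons e B ih =>
    intro h
    cases B with
    | nil =>
      obtain ⟨h1, _⟩ := h
      simp [h1]
    | cons e' B =>
      obtain ⟨_, _, _, _, _, _, _, h10⟩ := h
      rw [List.map_cons, List.map_cons, List.getLast?_cons_cons]
      exact ih h10

theorem isChain_reverse' {α : Type*} {R : α → α → Prop} {l : List α}
    (h : l.IsChain (fun a b => R b a)) : l.reverse.IsChain R := by
  rw [List.isChain_reverse]
  exact h

/-- The path of a piece. -/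
theorem Good.path {Mx : Mat} {w₁ : ℕ} {B : Pc} (h : Good Mx w₁ B)
    (hh : hitb Mx (w₁, B) = true) :
    ((B.map Prod.fst).reverse ++ (B.map Prod.snd).reverse).IsChain
      (fun a b => adj Mx a b = true) := by
  rw [List.isChain_append]
  refine ⟨isChain_reverse' h.fst_chain, isChain_reverse' h.snd_chain, ?_⟩
  intro x hx y hy
  rw [List.getLast?_reverse] at hx
  rw [List.head?_reverse, h.last] at hy
  cases B with
  | nil => simp at hx
  | cons e B =>
    simp only [List.map_cons, List.head?_cons, Option.mem_def, Option.some.injEq] at hx hy
    subst hx
    subst hy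
    exact hh

theorem zip_fst_snd (B : Pc) : (B.map Prod.fst).zip (B.map Prod.snd) = B := by
  induction B with
  | nil => rfl
  | cons e B ih => rw [List.map_cons, List.map_cons, List.zip_cons_cons, ih]

theorem mem_PP {Mx : Mat} (hsym : ∀ u v, adj Mx u v = adj Mx v u) {w₁ v : ℕ} {B : Pc}
    (h : Good Mx w₁ B) (hh : hitb Mx (w₁, B) = true) (hv : v ∈ verts B) : B ∈ PP Mx v := by
  have hbd := h.bd
  set p := (B.map Prod.fst).reverse ++ (B.map Prod.snd).reverse with hp
  have hch := h.path hh
  rw [← hp] at hch
  have hB : 0 < B.length := by
    cases B with
    | nil => simp [verts] at hv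
    | cons e B => simp
  have hpl : p.length = 2 * B.length := by
    rw [hp, List.length_append, List.length_reverse, List.length_reverse, List.length_map,
      List.length_map]
    omega
  have hmem : ∀ x, x ∈ p ↔ x ∈ verts B := by
    intro x
    rw [hp, List.mem_append, List.mem_reverse, List.mem_reverse]
    unfold verts
    rw [List.mem_append]
  have hpc : toPc B.length p = B := by
    unfold toPc
    have h1 : B.length = ((B.map Prod.fst).reverse).length := by simp
    rw [hp]
    have h2 : List.take B.length ((B.map Prod.fst).reverse ++ (B.map Prod.snd).reverse) =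
        (B.map Prod.fst).reverse := by
      rw [h1, List.take_left]
    have h3 : List.drop B.length ((B.map Prod.fst).reverse ++ (B.map Prod.snd).reverse) =
        (B.map Prod.snd).reverse := by
      rw [h1, List.drop_left]
    rw [h2, h3]
    change (List.zipWith Prod.mk _ _).reverse = B
    rw [List.reverse_zipWith (by simp), List.reverse_reverse, List.reverse_reverse]
    exact zip_fst_snd B
  have hlen : B.length ≤ Mx.length := by
    have h1 : (verts B).toFinset ⊆ Finset.range Mx.length := by
      intro x hx
      rw [List.mem_toFinset] at hx
      exact Finset.mem_range.2 (hbd.2 x hx)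
    have h2 := Finset.card_le_card h1
    rw [List.toFinset_card_of_nodup hbd.1, Finset.card_range, length_verts] at h2
    omega
  obtain ⟨q₁, q₂, hq⟩ := List.append_of_mem ((hmem v).2 hv)
  rw [hq] at hch
  unfold PP
  rw [List.mem_filter]
  refine ⟨?_, by simpa using hbd⟩
  rw [List.mem_flatMap]
  refine ⟨B.length - 1, List.mem_range.2 (by omega), ?_⟩
  rw [show B.length - 1 + 1 = B.length by omega]
  rw [List.mem_flatMap]
  have hql : q₁.length + (q₂.length + 1) = 2 * B.length := by
    rw [← hpl, hq, List.length_append, List.length_cons]
  refine ⟨q₁.length, List.mem_range.2 (by omega), ?_⟩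
  rw [List.mem_flatMap]
  have hlt : ∀ x ∈ p, x < Mx.length := fun x hx => hbd.2 x ((hmem x).1 hx)
  refine ⟨v :: q₁.reverse, ?_, ?_⟩
  · refine mem_ch (by simp) ?_ ?_
    · have h1 : (q₁ ++ [v]).IsChain (fun a b => adj Mx a b = true) := by
        have h2 : ((q₁ ++ [v]) ++ q₂).IsChain (fun a b => adj Mx a b = true) := by simpa using hch
        exact h2.left_of_append
      have h2 : ((q₁ ++ [v]).reverse).IsChain (fun a b => adj Mx a b = true) := by
        rw [List.isChain_reverse]
        refine h1.imp ?_
        intro a b hab
        rw [hsym]; exact hab
      simpa using h2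
    · intro x hx
      apply hlt
      rw [hq]
      rw [List.mem_reverse] at hx
      simp [hx]
  · rw [List.mem_map]
    refine ⟨v :: q₂, ?_, ?_⟩
    · rw [show 2 * B.length - 1 - q₁.length = q₂.length by omega]
      refine mem_ch rfl ?_ ?_
      · exact hch.right_of_append
      · intro x hx
        apply hlt
        rw [hq]
        simp [hx]
    · rw [List.reverse_cons, List.reverse_reverse, List.tail_cons, List.append_assoc,
        List.singleton_append, ← hq]
      exact hpc

end Pool.Agent.N597.NR
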