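import Pool.Agent.N597.NR.Run
set_option autoImplicit false

/-!
# The algorithm runs in polynomial time
-/

namespace Pool.Agent.N597.NR

open Pool.Agent.NPC

theorem sz_lt_le {x n : ℕ} (h : x < n) : sz x ≤ 4 * n + 1 := by
  have h1 := sz_nat_le x
  have h2 := NPC.Poly.size_le_self x
  omega

theorem sz_pc_le {n : ℕ} {B : Pc} (h : Bd n B) : sz B ≤ n * (8 * n + 4) + 1 := by
  have h1 : ∀ e ∈ B, sz e ≤ 8 * n + 3 := by
    intro e he
    have h2 : e.1 ∈ verts B := by
      unfold verts; rw [List.mem_append]; left; exact List.mem_map_of_mem he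
    have h3 : e.2 ∈ verts B := by
      unfold verts; rw [List.mem_append]; right; exact List.mem_map_of_mem he
    have h4 := sz_lt_le (h.2 _ h2)
    have h5 := sz_lt_le (h.2 _ h3)
    obtain ⟨e1, e2⟩ := e
    rw [sz_pair]
    simp only at h4 h5
    omega
  have h2 := sz_le_length_mul B (8 * n + 3) h1
  have h3 : B.length ≤ n := by
    have h4 : (verts B).toFinset ⊆ Finset.range n := by
      intro x hx
      rw [List.mem_toFinset] at hx
      exact Finset.mem_range.2 (h.2 x hx)
    have h5 := Finset.card_le_card h4
    rw [List.toFinset_card_of_nodup h.1, Finset.card_range, length_verts] at h5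
    omega
  refine h2.trans ?_
  exact Nat.add_le_add_right (Nat.mul_le_mul_right _ h3) 1

theorem length_lev0_le (Mx : Mat) (c : List (List Bool)) :
    (lev0 Mx c).length ≤ Mx.length * Mx.length := by
  unfold lev0
  refine (length_flatMap_le _ Mx.length _ ?_).trans (by rw [List.length_range])
  intro u _
  refine (length_flatMap_le _ 1 _ ?_).trans (by rw [List.length_range, mul_one])
  intro w _
  split_ifs <;> simp

/-- The bound for the sizes. -/
def bdf (n : ℕ) : ℕ := (n * n * n + n * n) * (8 * n * n + 8 * n + 8) + (8 * n * n + 4 * n + 10)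

theorem sz_detStep_le (Mx : Mat) (c : List (List Bool)) (k : ℕ) :
    sz ((detStep Mx c)^[k] (lev0 Mx c, none)) ≤ bdf Mx.length := by
  obtain ⟨h1, h2, _⟩ := det_inv Mx c k
  have h3 : ((detStep Mx c)^[k] (lev0 Mx c, none)).1.length ≤
      Mx.length * Mx.length * Mx.length + Mx.length * Mx.length := by
    cases k with
    | zero =>
      have := length_lev0_le Mx c
      simp only [Function.iterate_zero, id]
      omega
    | succ k =>
      rw [Function.iterate_succ_apply']
      unfold detStep cap
      simp only
      split_ifs with h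
      · omega
      · simp
  generalize (detStep Mx c)^[k] (lev0 Mx c, none) = st at *
  obtain ⟨L, o⟩ := st
  simp only at h1 h2 h3
  set n := Mx.length with hn
  have h4 : ∀ s ∈ L, sz s ≤ 8 * n * n + 8 * n + 7 := by
    intro s hs
    have h5 := h1 s hs
    rw [lev_eq, List.mem_filter, mem_allw] at h5
    have h6 := h5.1.2.bd
    have h7 : sz s.2 ≤ n * (8 * n + 4) + 1 := sz_pc_le h6
    have h8 : s.1 < n := by
      have h9 := h5.1.2.last
      have h10 := List.mem_of_getLast? h9
      exact h6.2 _ (by unfold verts; rw [List.mem_append]; right; exact h10)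
    have h9 := sz_lt_le h8
    obtain ⟨w₁, B⟩ := s
    rw [sz_pair]
    simp only at h7 h9
    have : n * (8 * n + 4) = 8 * n * n + 4 * n := by ring
    omega
  have h5 := sz_le_length_mul L _ h4
  have h6 : sz o ≤ 8 * n * n + 4 * n + 3 := by
    cases o with
    | none => simp
    | some B =>
      obtain ⟨j, _, w₁, h7, _⟩ := h2 B rfl
      rw [lev_eq, List.mem_filter, mem_allw] at h7
      have h8 : sz B ≤ n * (8 * n + 4) + 1 := sz_pc_le h7.1.2.bd
      rw [sz_some]
      have : n * (8 * n + 4) = 8 * n * n + 4 * n := by ring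
      omega
  have h7 : L.length * (8 * n * n + 8 * n + 7 + 1) ≤
      (n * n * n + n * n) * (8 * n * n + 8 * n + 8) := Nat.mul_le_mul_right _ h3
  rw [sz_pair]
  unfold bdf
  omega

theorem poly_det0 : NPC.Poly (fun p : Mat × List (List Bool) => det p.1 p.2) := by
  unfold det
  refine NPC.Poly.snd ?_
  refine NPC.Poly.iterLen (l := fun p : Mat × List (List Bool) => p.1)
    (s := fun p : Mat × List (List Bool) => ((lev0 p.1 p.2, none) : List (ℕ × Pc) × Option Pc))
    (F := fun (p : Mat × List (List Bool)) st => detStep p.1 p.2 st)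
    (by fun_prop) (by fun_prop) (by fun_prop)
    ((Polynomial.X * Polynomial.X * Polynomial.X + Polynomial.X * Polynomial.X) *
      (Polynomial.C 8 * Polynomial.X * Polynomial.X + Polynomial.C 8 * Polynomial.X +
        Polynomial.C 8) + (Polynomial.C 8 * Polynomial.X * Polynomial.X +
        Polynomial.C 4 * Polynomial.X + Polynomial.C 10)) ?_
  rintro ⟨Mx, c⟩ k _
  refine (sz_detStep_le Mx c k).trans ?_
  have h1 : Mx.length ≤ sz (Mx, c) := by
    have := length_lt_sz Mx
    rw [sz_pair]
    omega
  simp only [Polynomial.eval_add, Polynomial.eval_mul, Polynomial.eval_X, Polynomial.eval_C]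
  unfold bdf
  gcongr

variable {α : Type} [TEnc α]

@[fun_prop]
theorem poly_det {M : α → Mat} {c : α → List (List Bool)} (hM : NPC.Poly M) (hc : NPC.Poly c) :
    NPC.Poly (fun a => det (M a) (c a)) :=
  poly_det0.comp (f := fun a => (M a, c a)) (by fun_prop)

@[fun_prop]
theorem poly_resample {S : α → List (List (List Bool))} {A : α → Pc} (hS : NPC.Poly S)
    (hA : NPC.Poly A) : NPC.Poly (fun a => resample (S a) (A a)) := by
  unfold resample
  exact NPC.Poly.map (F := fun a (e : List (List Bool) × ℕ) =>
    if e.2 ∈ verts (A a) then e.1.tail else e.1) (by fun_prop) (by fun_prop)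

theorem poly_stepS : NPC.Poly (fun p : Mat × List (List (List Bool)) => stepS p.1 p.2) := by
  unfold stepS
  exact NPC.Poly.optElim (h := fun (p : Mat × List (List (List Bool))) A => resample p.2 A)
    (by fun_prop) (by fun_prop) (by fun_prop)

theorem sz_tail_le {β : Type} [TEnc β] (l : List β) : sz l.tail ≤ sz l := by
  cases l with
  | nil => simp
  | cons a l => simp; omega

theorem sz_resample_le (A : Pc) : ∀ (S : List (List (List Bool))) (m : ℕ),
    sz ((S.zipIdx m).map fun e => if e.2 ∈ verts A then e.1.tail else e.1) ≤ sz S := by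
  intro S
  induction S with
  | nil => intro m; simp
  | cons st S ih =>
    intro m
    rw [List.zipIdx_cons, List.map_cons, sz_list_cons, sz_list_cons]
    have h1 := ih (m + 1)
    have h2 : sz (if m ∈ verts A then st.tail else st) ≤ sz st := by
      split_ifs
      · exact sz_tail_le st
      · exact le_rfl
    simp only at h1 ⊢
    omega

theorem sz_stepS_le (Mx : Mat) (S : List (List (List Bool))) : sz (stepS Mx S) ≤ sz S := by
  unfold stepS
  cases det Mx (cols S) with
  | none => exact le_rfl
  | some A => exact sz_resample_le A S 0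

theorem poly_alg : NPC.Poly alg := by
  unfold alg
  have h0 : NPC.Poly (fun a : Mat × List Bool => initS a.1 a.2) :=
    poly_initS (NPC.Poly.fst NPC.Poly.id) (NPC.Poly.snd NPC.Poly.id)
  obtain ⟨q, hq⟩ := h0.sz_le
  have h1 : UPoly (fun a : Mat × List Bool => Tn a.1.length) :=
    uPoly_Tn (UPoly.length (NPC.Poly.fst NPC.Poly.id))
  have h2 : NPC.Poly (fun a : Mat × List Bool =>
      (fun S => stepS a.1 S)^[(List.replicate (Tn a.1.length) ()).length] (initS a.1 a.2)) := by
    refine NPC.Poly.iterLen (l := fun a : Mat × List Bool => List.replicate (Tn a.1.length) ())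
      (s := fun a : Mat × List Bool => initS a.1 a.2)
      (F := fun (a : Mat × List Bool) S => stepS a.1 S) h1 h0 ?_ q ?_
    · exact poly_stepS.comp (f := fun p : (Mat × List Bool) × List (List (List Bool)) =>
        (p.1.1, p.2)) (by fun_prop)
    · intro a k _
      refine le_trans ?_ (hq a)
      induction k with
      | zero => exact le_rfl
      | succ k ih =>
        rw [Function.iterate_succ_apply']
        exact (sz_stepS_le _ _).trans (ih (by omega))
  have h3 : NPC.Poly (fun a : Mat × List Bool =>
      (stepS a.1)^[Tn a.1.length] (initS a.1 a.2)) := h2.congr fun a => by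
    rw [List.length_replicate]
  exact NPC.Poly.map (F := fun _ l => valB l) (poly_cols h3)
    (NPC.Poly.valBits (NPC.Poly.snd NPC.Poly.id))

end Pool.Agent.N597.NR
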