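import Pool.Agent.N597.NR.Paths
set_option autoImplicit false

/-!
# The run of the algorithm and its history
-/

namespace Pool.Agent.N597.NR

theorem det_inv (Mx : Mat) (c : List (List Bool)) (k : ℕ) :
    (∀ s ∈ ((detStep Mx c)^[k] (lev0 Mx c, none)).1, s ∈ lev Mx c k) ∧
    (∀ B, ((detStep Mx c)^[k] (lev0 Mx c, none)).2 = some B →
      ∃ j < k, ∃ w₁, (w₁, B) ∈ lev Mx c j ∧ hitb Mx (w₁, B) = true) ∧
    ((∀ j ≤ k, (lev Mx c j).length ≤ Mx.length * Mx.length * Mx.length) →
      ((detStep Mx c)^[k] (lev0 Mx c, none)).1 = lev Mx c k ∧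
      (((detStep Mx c)^[k] (lev0 Mx c, none)).2 = none →
        ∀ j < k, ∀ s ∈ lev Mx c j, hitb Mx s = false)) := by
  induction k with
  | zero =>
    refine ⟨fun s hs => hs, fun B h => by simp at h, fun _ => ⟨rfl, fun _ j hj => by omega⟩⟩
  | succ k ih =>
    rw [Function.iterate_succ_apply']
    set st := (detStep Mx c)^[k] (lev0 Mx c, none) with hst
    obtain ⟨i1, i2, i3⟩ := ih
    refine ⟨?_, ?_, ?_⟩
    · intro s hs
      unfold detStep cap at hs
      simp only at hs
      split_ifs at hs
      · rw [List.mem_flatMap] at hs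
        obtain ⟨z, hz, hs⟩ := hs
        rw [lev, List.mem_flatMap]
        exact ⟨z, i1 z hz, hs⟩
      · simp at hs
    · intro B hB
      unfold detStep at hB
      simp only at hB
      split_ifs at hB
      · obtain ⟨j, hj, h⟩ := i2 B hB
        exact ⟨j, by omega, h⟩
      · rw [Option.map_eq_some_iff] at hB
        obtain ⟨s, hs, rfl⟩ := hB
        have h1 := List.mem_of_head? hs
        rw [List.mem_filter] at h1
        exact ⟨k, by omega, s.1, i1 s h1.1, h1.2⟩
    · intro hK
      obtain ⟨i4, i5⟩ := i3 (fun j hj => hK j (by omega))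
      refine ⟨?_, ?_⟩
      · unfold detStep cap
        simp only
        rw [i4]
        have h1 := hK (k + 1) le_rfl
        rw [lev] at h1
        rw [if_pos h1]
        rfl
      · intro h j hj s hs
        unfold detStep at h
        simp only at h
        split_ifs at h with h1
        · rw [h] at h1
          simp at h1
        · rw [Option.map_eq_none_iff, List.head?_eq_none_iff, List.filter_eq_nil_iff] at h
          rcases Nat.lt_succ_iff_lt_or_eq.1 hj with h2 | h2
          · refine i5 ?_ j h2 s hs
            cases h3 : st.2 with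
            | none => rfl
            | some x => rw [h3] at h1; simp at h1
          · subst h2
            rw [i4] at h
            have := h s hs
            simpa using this

/-- The pieces which are recoloured. -/
def Al (Mx : Mat) (A : Pc) : Prop := ∃ w₁, Good Mx w₁ A ∧ hitb Mx (w₁, A) = true

theorem det_some {Mx : Mat} {c : List (List Bool)} {B : Pc} (h : det Mx c = some B) :
    Al Mx B ∧ ∀ w₁, mt c (w₁, B) = true := by
  obtain ⟨j, _, w₁, h1, h2⟩ := (det_inv Mx c Mx.length).2.1 B h
  rw [lev_eq, List.mem_filter] at h1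
  rw [mem_allw] at h1
  exact ⟨⟨w₁, h1.1.2, h2⟩, fun _ => h1.2⟩

theorem det_none {Mx : Mat} {c : List (List Bool)} (h : det Mx c = none)
    (hK : ∀ j ≤ Mx.length, (lev Mx c j).length ≤ Mx.length * Mx.length * Mx.length)
    {w₁ : ℕ} {B : Pc} (hB : Good Mx w₁ B) (hm : mt c (w₁, B) = true) (hl : B.length ≤ Mx.length) :
    hitb Mx (w₁, B) = false := by
  have h0 : 0 < B.length := by
    cases B with
    | nil => exact absurd hB (by simp [Good])
    | cons e B => simp
  refine ((det_inv Mx c Mx.length).2.2 hK).2 h (B.length - 1) (by omega) (w₁, B) ?_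
  rw [lev_eq, List.mem_filter]
  refine ⟨?_, hm⟩
  rw [mem_allw]
  exact ⟨by simp only; omega, hB⟩

/-- The initial colours of a vertex. -/
def row (Mx : Mat) (r : List Bool) (v : ℕ) : List (List Bool) :=
  (List.range (Tn Mx.length + 1)).map fun j =>
    (List.range (bb Mx)).map fun i => r.getD (pos (Tn Mx.length + 1) (bb Mx) v j i) false

/-- The state of the algorithm after a history. -/
def stateOf (Mx : Mat) (r : List Bool) (H : List Pc) : List (List (List Bool)) :=
  (List.range Mx.length).map fun v => (row Mx r v).drop (cnt H v)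

theorem initS_eq (Mx : Mat) (r : List Bool) : initS Mx r = stateOf Mx r [] := by
  unfold initS stateOf
  simp only [cnt_nil, List.drop_zero]
  rfl

theorem resample_stateOf (Mx : Mat) (r : List Bool) (H : List Pc) (A : Pc) :
    resample (stateOf Mx r H) A = stateOf Mx r (A :: H) := by
  unfold resample stateOf
  apply List.ext_getElem
  · simp
  · intro i h1 h2
    simp only [List.getElem_map, List.getElem_zipIdx, List.getElem_range, Nat.zero_add, cnt_cons]
    split_ifs with h
    · rw [List.tail_drop]
    · rfl

theorem getD_ofFn {p : ℕ} (r : Fin p → Bool) (i : ℕ) : (List.ofFn r).getD i false = bv r i := by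
  unfold bv
  rw [List.getD_eq_getElem?_getD]
  split_ifs with h
  · rw [List.getElem?_eq_getElem (by simpa using h)]
    simp
  · rw [List.getElem?_eq_none (by simpa using h)]
    rfl

theorem cols_stateOf {Mx : Mat} {p : ℕ} {r : Fin p → Bool} {H : List Pc} {v : ℕ}
    (hv : v < Mx.length) (hH : H.length ≤ Tn Mx.length) :
    (cols (stateOf Mx (List.ofFn r) H)).getD v [] =
      (List.range (bb Mx)).map fun i => bv r (pos (Tn Mx.length + 1) (bb Mx) v (cnt H v) i) := by
  unfold cols stateOf
  rw [List.map_map, List.getD_eq_getElem?_getD, List.getElem?_map, List.getElem?_range hv]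
  simp only [Option.map_some, Option.getD_some, Function.comp_apply, List.head?_drop]
  have h1 : cnt H v < Tn Mx.length + 1 := lt_of_le_of_lt (cnt_le_length H v) (by omega)
  unfold row
  rw [List.getElem?_map, List.getElem?_range h1]
  simp only [Option.map_some, Option.getD_some]
  congr 1
  funext i
  exact getD_ofFn r _

theorem mt_stateOf {Mx : Mat} {p : ℕ} {r : Fin p → Bool} {H : List Pc} {s : ℕ × Pc}
    (hs : ∀ v ∈ verts s.2, v < Mx.length) (hH : H.length ≤ Tn Mx.length) :
    mt (cols (stateOf Mx (List.ofFn r) H)) s = true ↔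
      Sat r (eqs (Tn Mx.length + 1) (bb Mx) (cnt H) s.2) := by
  obtain ⟨w₁, B⟩ := s
  unfold mt
  simp only at hs ⊢
  induction B with
  | nil => simp [eqs, Sat]
  | cons e B ih =>
    have h1 := ih (fun v hv => hs v ((verts_cons e B v).2 (by tauto)))
    rw [List.all_cons, Bool.and_eq_true, h1]
    unfold eqs
    rw [List.flatMap_cons, sat_append]
    refine and_congr ?_ Iff.rfl
    rw [decide_eq_true_iff, cols_stateOf (hs e.1 ((verts_cons e B _).2 (by tauto))) hH,
      cols_stateOf (hs e.2 ((verts_cons e B _).2 (by tauto))) hH, List.map_inj_left]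
    unfold Sat
    constructor
    · intro h x hx
      rw [List.mem_map] at hx
      obtain ⟨i, hi, rfl⟩ := hx
      exact h i hi
    · intro h i hi
      exact h _ (List.mem_map_of_mem hi)

/-- The run of the algorithm has a history. -/
theorem run_history {Mx : Mat} {p : ℕ} (r : Fin p → Bool) : ∀ j ≤ Tn Mx.length, ∃ H : List Pc,
    H.length ≤ j ∧ (∀ A ∈ H, Al Mx A) ∧
    Sat r (alleqs (Tn Mx.length + 1) (bb Mx) H) ∧
    (stepS Mx)^[j] (initS Mx (List.ofFn r)) = stateOf Mx (List.ofFn r) H ∧
    (H.length < j → det Mx (cols (stateOf Mx (List.ofFn r) H)) = none) := by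
  intro j
  induction j with
  | zero =>
    intro _
    refine ⟨[], le_rfl, by simp, by simp [alleqs, Sat], ?_, by simp⟩
    rw [Function.iterate_zero, id, initS_eq]
  | succ j ih =>
    intro hj
    obtain ⟨H, h1, h2, h3, h4, h5⟩ := ih (by omega)
    cases hd : det Mx (cols (stateOf Mx (List.ofFn r) H)) with
    | none =>
      refine ⟨H, by omega, h2, h3, ?_, fun _ => hd⟩
      rw [Function.iterate_succ_apply', h4]
      unfold stepS
      rw [hd]
      rfl
    | some A =>
      obtain ⟨h6, h7⟩ := det_some hd
      refine ⟨A :: H, by simp only [List.length_cons]; omega, ?_, ?_, ?_, ?_⟩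
      · intro B hB
        rcases List.mem_cons.1 hB with h | h
        · rw [h]; exact h6
        · exact h2 B h
      · rw [sat_alleqs_cons]
        refine ⟨?_, h3⟩
        obtain ⟨w₁, h8, _⟩ := h6
        exact (mt_stateOf (s := (w₁, A)) h8.bd.2 (by omega)).1 (h7 w₁)
      · rw [Function.iterate_succ_apply', h4]
        unfold stepS
        rw [hd]
        exact resample_stateOf _ _ _ _
      · intro h
        exfalso
        rw [List.length_cons] at h
        have := h5 (by omega)
        rw [hd] at this
        exact absurd this (by simp)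

end Pool.Agent.N597.NR
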