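import Pool.Agent.N597.NR.Alg
set_option autoImplicit false

/-!
# Pairs of disjoint paths, and paths through a vertex
-/

namespace Pool.Agent.N597.NR

/-- A pair of disjoint paths, listed backwards; `w₁` is the first vertex of the second path. -/
def Good (Mx : Mat) (w₁ : ℕ) : Pc → Prop
  | [] => False
  | [e] => e.2 = w₁ ∧ e.1 ≠ e.2 ∧ e.1 < Mx.length ∧ e.2 < Mx.length
  | e :: e' :: B => adj Mx e'.1 e.1 = true ∧ adj Mx e'.2 e.2 = true ∧ e.1 ≠ e.2 ∧
      e.1 ∉ verts (e' :: B) ∧ e.2 ∉ verts (e' :: B) ∧ e.1 < Mx.length ∧ e.2 < Mx.length ∧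
      Good Mx w₁ (e' :: B)

/-- The list of all pairs of vertices. -/
def allw0 (Mx : Mat) : List (ℕ × Pc) :=
  (List.range Mx.length).flatMap fun u => (List.range Mx.length).flatMap fun w =>
    if u ≠ w then [(w, [(u, w)])] else []

/-- All extensions. -/
def extA (Mx : Mat) (s : ℕ × Pc) : List (ℕ × Pc) :=
  (List.range Mx.length).flatMap fun x => (List.range Mx.length).flatMap fun y =>
    if adj Mx (s.2.head?.getD (0, 0)).1 x = true ∧ adj Mx (s.2.head?.getD (0, 0)).2 y = true ∧
      x ≠ y ∧ x ∉ verts s.2 ∧ y ∉ verts s.2 then [(s.1, (x, y) :: s.2)] else []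

/-- All pairs of disjoint paths with `i + 1` vertices each. -/
def allw (Mx : Mat) : ℕ → List (ℕ × Pc)
  | 0 => allw0 Mx
  | i + 1 => (allw Mx i).flatMap (extA Mx)

/-- The pairs of disjoint paths with equal colours. -/
def lev (Mx : Mat) (c : List (List Bool)) : ℕ → List (ℕ × Pc)
  | 0 => lev0 Mx c
  | i + 1 => (lev Mx c i).flatMap (ext Mx c)

/-- The two vertices of every pair have the same colour. -/
def mt (c : List (List Bool)) (s : ℕ × Pc) : Bool :=
  s.2.all fun e => decide (c.getD e.1 [] = c.getD e.2 [])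

theorem lev0_eq (Mx : Mat) (c : List (List Bool)) : lev0 Mx c = (allw0 Mx).filter (mt c) := by
  unfold lev0 allw0
  rw [List.filter_flatMap]
  congr 1
  funext u
  rw [List.filter_flatMap]
  congr 1
  funext w
  by_cases h1 : u = w
  · simp [h1]
  · by_cases h2 : c.getD u [] = c.getD w []
    · rw [if_pos ⟨h1, h2⟩, if_pos h1]
      simp only [List.filter_cons, List.filter_nil, mt, List.all_cons, List.all_nil, h2]
      simp
    · rw [if_neg (fun h => h2 h.2), if_pos h1]
      simp only [List.filter_cons, List.filter_nil, mt, List.all_cons, List.all_nil, h2]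
      simp

theorem ext_eq (Mx : Mat) (c : List (List Bool)) (s : ℕ × Pc) :
    (extA Mx s).filter (mt c) = if mt c s = true then ext Mx c s else [] := by
  unfold extA ext
  rw [List.filter_flatMap]
  by_cases hs : mt c s = true
  · rw [if_pos hs]
    congr 1
    funext x
    rw [List.filter_flatMap]
    congr 1
    funext y
    by_cases h1 : adj Mx (s.2.head?.getD (0, 0)).1 x = true ∧
      adj Mx (s.2.head?.getD (0, 0)).2 y = true ∧ x ≠ y ∧ x ∉ verts s.2 ∧ y ∉ verts s.2
    · by_cases h2 : c.getD x [] = c.getD y []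
      · rw [if_pos h1, if_pos ⟨h1.1, h1.2.1, h1.2.2.1, h1.2.2.2.1, h1.2.2.2.2, h2⟩]
        have h3 : mt c (s.1, (x, y) :: s.2) = true := by
          unfold mt at hs ⊢
          rw [List.all_cons, hs, Bool.and_true, decide_eq_true_iff]
          exact h2
        rw [List.filter_cons, if_pos h3, List.filter_nil]
      · rw [if_pos h1, if_neg (fun h => h2 h.2.2.2.2.2)]
        unfold mt
        simp only [List.filter_cons, List.filter_nil, List.all_cons, h2]
        simp
    · rw [if_neg h1, if_neg (fun h => h1 ⟨h.1, h.2.1, h.2.2.1, h.2.2.2.1, h.2.2.2.2.1⟩)]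
      simp
  · rw [if_neg hs]
    rw [List.flatMap_eq_nil_iff]
    intro x _
    rw [List.filter_flatMap, List.flatMap_eq_nil_iff]
    intro y _
    split_ifs
    · rw [List.filter_eq_nil_iff]
      intro z hz
      rw [List.mem_singleton] at hz
      subst hz
      unfold mt at hs ⊢
      rw [List.all_cons]
      intro h
      rw [Bool.and_eq_true] at h
      exact hs h.2
    · simp

theorem lev_eq (Mx : Mat) (c : List (List Bool)) (i : ℕ) :
    lev Mx c i = (allw Mx i).filter (mt c) := by
  induction i with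
  | zero => exact lev0_eq Mx c
  | succ i ih =>
    rw [lev, allw, ih, List.filter_flatMap]
    have h1 : (fun s => (extA Mx s).filter (mt c)) =
        fun s => if mt c s = true then ext Mx c s else [] := funext fun s => ext_eq Mx c s
    rw [h1]
    induction allw Mx i with
    | nil => rfl
    | cons s l ihl =>
      rw [List.filter_cons, List.flatMap_cons]
      split_ifs with h2
      · rw [List.flatMap_cons, ihl]
      · rw [ihl, List.nil_append]

theorem mem_allw0 {Mx : Mat} {s : ℕ × Pc} :
    s ∈ allw0 Mx ↔ s.2.length = 1 ∧ Good Mx s.1 s.2 := by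
  unfold allw0
  simp only [List.mem_flatMap, List.mem_range]
  constructor
  · rintro ⟨u, hu, w, hw, h⟩
    split_ifs at h with h1
    · rw [List.mem_singleton] at h
      subst h
      exact ⟨rfl, rfl, h1, hu, hw⟩
    · simp at h
  · obtain ⟨w₁, B⟩ := s
    rintro ⟨h1, h2⟩
    match B, h1, h2 with
    | [e], _, h2 =>
      obtain ⟨h3, h4, h5, h6⟩ := h2
      refine ⟨e.1, h5, e.2, h6, ?_⟩
      rw [if_pos h4, List.mem_singleton]
      exact Prod.ext h3.symm rfl

theorem mem_extA {Mx : Mat} {s z : ℕ × Pc} :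
    z ∈ extA Mx s ↔ ∃ x y, x < Mx.length ∧ y < Mx.length ∧
      (adj Mx (s.2.head?.getD (0, 0)).1 x = true ∧ adj Mx (s.2.head?.getD (0, 0)).2 y = true ∧
      x ≠ y ∧ x ∉ verts s.2 ∧ y ∉ verts s.2) ∧ z = (s.1, (x, y) :: s.2) := by
  unfold extA
  simp only [List.mem_flatMap, List.mem_range]
  constructor
  · rintro ⟨x, hx, y, hy, h⟩
    split_ifs at h with h1
    · rw [List.mem_singleton] at h
      exact ⟨x, y, hx, hy, h1, h⟩
    · simp at h
  · rintro ⟨x, y, hx, hy, h1, h⟩
    refine ⟨x, hx, y, hy, ?_⟩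
    rw [if_pos h1, List.mem_singleton]
    exact h

theorem mem_allw {Mx : Mat} : ∀ {i : ℕ} {s : ℕ × Pc},
    s ∈ allw Mx i ↔ s.2.length = i + 1 ∧ Good Mx s.1 s.2 := by
  intro i
  induction i with
  | zero => intro s; exact mem_allw0
  | succ i ih =>
    intro z
    rw [allw, List.mem_flatMap]
    constructor
    · rintro ⟨s, hs, hz⟩
      rw [mem_extA] at hz
      obtain ⟨x, y, hx, hy, h1, rfl⟩ := hz
      rw [ih] at hs
      obtain ⟨h2, h3⟩ := hs
      obtain ⟨w₁, B⟩ := s
      refine ⟨by simp only [List.length_cons] at h2 ⊢; omega, ?_⟩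
      match B, h2, h3, h1 with
      | e :: B', _, h3, h1 =>
        exact ⟨h1.1, h1.2.1, h1.2.2.1, h1.2.2.2.1, h1.2.2.2.2, hx, hy, h3⟩
    · obtain ⟨w₁, B⟩ := z
      rintro ⟨h1, h2⟩
      match B, h1, h2 with
      | e :: e' :: B', h1, h2 =>
        obtain ⟨h3, h4, h5, h6, h7, h8, h9, h10⟩ := h2
        refine ⟨(w₁, e' :: B'), ?_, ?_⟩
        · rw [ih]
          refine ⟨?_, h10⟩
          simp only [List.length_cons] at h1 ⊢
          omega
        · rw [mem_extA]
          exact ⟨e.1, e.2, h8, h9, ⟨h3, h4, h5, h6, h7⟩, rfl⟩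

theorem Good.bd {Mx : Mat} {w₁ : ℕ} : ∀ {B : Pc}, Good Mx w₁ B → Bd Mx.length B := by
  intro B
  induction B with
  | nil => intro h; exact absurd h (by simp [Good])
  | cons e B ih =>
    intro h
    cases B with
    | nil =>
      obtain ⟨_, h2, h3, h4⟩ := h
      refine ⟨?_, ?_⟩
      · simp [verts, h2]
      · intro v hv
        rw [verts_cons] at hv
        rcases hv with rfl | rfl | hv
        · exact h3
        · exact h4
        · simp [verts] at hv
    | cons e' B =>
      obtain ⟨_, _, h5, h6, h7, h8, h9, h10⟩ := h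
      have h11 := ih h10
      refine ⟨?_, ?_⟩
      · have h12 := h11.1
        unfold verts at h12 h6 h7 ⊢
        rw [List.map_cons, List.map_cons (l := e' :: B), List.cons_append, List.nodup_cons]
        rw [List.mem_append, not_or] at h6 h7
        refine ⟨?_, ?_⟩
        · rw [List.mem_append, List.mem_cons, not_or, not_or]
          exact ⟨h6.1, h5, h6.2⟩
        · rw [List.nodup_middle]
          rw [List.nodup_cons]
          refine ⟨?_, h12⟩
          rw [List.mem_append, not_or]
          exact h7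
      · intro v hv
        rw [verts_cons] at hv
        rcases hv with rfl | rfl | hv
        · exact h8
        · exact h9
        · exact h11.2 v hv

/-! ### Sums over lists -/

theorem sum_flatMap_le {α β : Type*} (g : β → ℝ) (f : α → List β) (C : ℝ) :
    ∀ (l : List α), (∀ x ∈ l, ((f x).map g).sum ≤ C) →
      ((l.flatMap f).map g).sum ≤ l.length * C := by
  intro l
  induction l with
  | nil => intro _; simp
  | cons x l ih =>
    intro h
    rw [List.flatMap_cons, List.map_append, List.sum_append, List.length_cons]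
    have h1 := h x (by simp)
    have h2 := ih (fun y hy => h y (List.mem_cons_of_mem _ hy))
    push_cast
    linarith

theorem sum_filter_le {β : Type*} (g : β → ℝ) (hg : ∀ x, 0 ≤ g x) (p : β → Bool) (l : List β) :
    ((l.filter p).map g).sum ≤ (l.map g).sum := by
  induction l with
  | nil => simp
  | cons x l ih =>
    rw [List.filter_cons]
    split_ifs
    · rw [List.map_cons, List.map_cons, List.sum_cons, List.sum_cons]
      linarith
    · rw [List.map_cons, List.sum_cons]
      have := hg x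
      linarith

theorem sum_const_le {β : Type*} (g : β → ℝ) (C : ℝ) (l : List β) (h : ∀ x ∈ l, g x ≤ C) :
    (l.map g).sum ≤ l.length * C := by
  induction l with
  | nil => simp
  | cons x l ih =>
    rw [List.map_cons, List.sum_cons, List.length_cons]
    have h1 := h x (by simp)
    have h2 := ih (fun y hy => h y (List.mem_cons_of_mem _ hy))
    push_cast
    linarith

theorem length_flatMap_le {α β : Type*} (f : α → List β) (C : ℕ) :
    ∀ (l : List α), (∀ x ∈ l, (f x).length ≤ C) → (l.flatMap f).length ≤ l.length * C := by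
  intro l
  induction l with
  | nil => intro _; simp
  | cons x l ih =>
    intro h
    rw [List.flatMap_cons, List.length_append, List.length_cons]
    have h1 := h x (by simp)
    have h2 := ih (fun y hy => h y (List.mem_cons_of_mem _ hy))
    rw [add_mul, one_mul]
    omega

/-! ### Neighbours and paths -/

/-- The list of neighbours. -/
def nb (Mx : Mat) (v : ℕ) : List ℕ := (List.range Mx.length).filter fun x => adj Mx v x

/-- The lists of vertices which start at `v` and in which consecutive vertices are adjacent. -/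
def ch (Mx : Mat) : ℕ → ℕ → List (List ℕ)
  | 0, v => [[v]]
  | m + 1, v => (nb Mx v).flatMap fun x => (ch Mx m x).map fun l => v :: l

theorem length_ch {Mx : Mat} {D : ℕ} (hD : ∀ v, (nb Mx v).length ≤ D) :
    ∀ m v, (ch Mx m v).length ≤ D ^ m := by
  intro m
  induction m with
  | zero => intro v; simp [ch]
  | succ m ih =>
    intro v
    rw [ch]
    refine (length_flatMap_le _ (D ^ m) _ (fun x _ => by rw [List.length_map]; exact ih x)).trans ?_
    rw [pow_succ, mul_comm]
    exact Nat.mul_le_mul_left _ (hD v)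

theorem length_of_mem_ch {Mx : Mat} : ∀ {m v : ℕ} {l : List ℕ}, l ∈ ch Mx m v → l.length = m + 1 := by
  intro m
  induction m with
  | zero =>
    intro v l h
    simp only [ch, List.mem_singleton] at h
    subst h
    rfl
  | succ m ih =>
    intro v l h
    rw [ch, List.mem_flatMap] at h
    obtain ⟨x, _, h⟩ := h
    rw [List.mem_map] at h
    obtain ⟨l', h, rfl⟩ := h
    rw [List.length_cons, ih h]

theorem mem_ch {Mx : Mat} : ∀ {m v : ℕ} {l : List ℕ}, l.length = m →
    (v :: l).IsChain (fun a b => adj Mx a b = true) → (∀ x ∈ l, x < Mx.length) →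
      v :: l ∈ ch Mx m v := by
  intro m
  induction m with
  | zero =>
    intro v l h _ _
    rw [List.length_eq_zero_iff] at h
    subst h
    simp [ch]
  | succ m ih =>
    intro v l hl hc hlt
    cases l with
    | nil => simp at hl
    | cons x l =>
      rw [List.isChain_cons_cons] at hc
      rw [ch, List.mem_flatMap]
      refine ⟨x, ?_, ?_⟩
      · unfold nb
        rw [List.mem_filter, List.mem_range]
        exact ⟨hlt x (by simp), hc.1⟩
      · rw [List.mem_map]
        exact ⟨x :: l, ih (by simpa using hl) hc.2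
          (fun y hy => hlt y (List.mem_cons_of_mem _ hy)), rfl⟩

/-- The piece of a path with `2 t` vertices. -/
def toPc (t : ℕ) (p : List ℕ) : Pc := ((p.take t).zip (p.drop t)).reverse

instance (n : ℕ) (A : Pc) : Decidable (Bd n A) := by unfold Bd; infer_instance

/-- The pieces of the paths of even order through `v`. -/
def PP (Mx : Mat) (v : ℕ) : List Pc :=
  ((List.range Mx.length).flatMap fun t => (List.range (2 * (t + 1))).flatMap fun j =>
    (ch Mx j v).flatMap fun p₁ => (ch Mx (2 * (t + 1) - 1 - j) v).map fun p₂ =>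
      toPc (t + 1) (p₁.reverse ++ p₂.tail)).filter fun A => decide (Bd Mx.length A)

theorem sum_half (n : ℕ) : ((List.range n).map fun t => ((1 : ℝ) / 2) ^ (t + 1)).sum ≤ 1 := by
  have key : ∀ n : ℕ, ((List.range n).map fun t => ((1 : ℝ) / 2) ^ (t + 1)).sum =
      1 - (1 / 2) ^ n := by
    intro n
    induction n with
    | zero => simp
    | succ n ih =>
      rw [List.range_succ, List.map_append, List.sum_append, ih]
      simp only [List.map_cons, List.map_nil, List.sum_cons, List.sum_nil, add_zero]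
      ring
  rw [key]
  have : (0 : ℝ) ≤ (1 / 2) ^ n := by positivity
  linarith

theorem sum_flatMap_le' {α β : Type*} (g : β → ℝ) (f : α → List β) (C : α → ℝ) :
    ∀ (l : List α), (∀ x ∈ l, ((f x).map g).sum ≤ C x) →
      ((l.flatMap f).map g).sum ≤ (l.map C).sum := by
  intro l
  induction l with
  | nil => intro _; simp
  | cons x l ih =>
    intro h
    rw [List.flatMap_cons, List.map_append, List.sum_append, List.map_cons, List.sum_cons]
    have h1 := h x (by simp)
    have h2 := ih (fun y hy => h y (List.mem_cons_of_mem _ hy))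
    linarith

theorem four_mul_le (t : ℕ) : (4 : ℝ) * (t + 1) ≤ 8 ^ (t + 1) := by
  induction t with
  | zero => norm_num
  | succ t ih =>
    rw [pow_succ]
    push_cast
    have : (0 : ℝ) ≤ t := Nat.cast_nonneg t
    nlinarith

/-- The weights. -/
theorem sum_PP {Mx : Mat} {D b : ℕ} (hD1 : 1 ≤ D) (hD : ∀ v, (nb Mx v).length ≤ D)
    (hb : 64 * D ^ 2 ≤ 2 ^ b) (v : ℕ) :
    ((PP Mx v).map fun A => (2 * (1 / 2 : ℝ) ^ (b * A.length)) * 2 ^ (verts A).length).sum ≤ 1 := by
  unfold PP
  refine (sum_filter_le _ (fun A => by positivity) _ _).trans ?_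
  refine (sum_flatMap_le' _ _ (fun t => (1 / 2 : ℝ) ^ (t + 1)) _ ?_).trans (sum_half _)
  intro t _
  have hDpos : (0 : ℝ) < D := by exact_mod_cast hD1
  set x : ℝ := 2 * (1 / 2 : ℝ) ^ (b * (t + 1)) * 2 ^ (2 * (t + 1)) with hx
  have hx0 : 0 ≤ x := by positivity
  have hkey : ∀ j ∈ List.range (2 * (t + 1)), (((ch Mx j v).flatMap fun p₁ =>
      (ch Mx (2 * (t + 1) - 1 - j) v).map fun p₂ => toPc (t + 1) (p₁.reverse ++ p₂.tail)).map
      fun A => (2 * (1 / 2 : ℝ) ^ (b * A.length)) * 2 ^ (verts A).length).sum ≤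
      (D : ℝ) ^ (2 * (t + 1)) * x := by
    intro j hj
    rw [List.mem_range] at hj
    have h1 : ∀ p₁ ∈ ch Mx j v, (((ch Mx (2 * (t + 1) - 1 - j) v).map fun p₂ =>
        toPc (t + 1) (p₁.reverse ++ p₂.tail)).map
        fun A => (2 * (1 / 2 : ℝ) ^ (b * A.length)) * 2 ^ (verts A).length).sum ≤
        (D : ℝ) ^ (2 * (t + 1) - 1 - j) * x := by
      intro p₁ hp₁
      rw [List.map_map]
      refine (sum_const_le _ x _ ?_).trans ?_
      · intro p₂ hp₂
        have h2 := length_of_mem_ch hp₁
        have h3 := length_of_mem_ch hp₂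
        have h4 : (toPc (t + 1) (p₁.reverse ++ p₂.tail)).length = t + 1 := by
          unfold toPc
          rw [List.length_reverse, List.length_zip, List.length_take, List.length_drop,
            List.length_append, List.length_reverse, List.length_tail, h2, h3]
          omega
        simp only [Function.comp_apply]
        rw [length_verts, h4]
      · refine mul_le_mul_of_nonneg_right ?_ hx0
        exact_mod_cast length_ch hD _ v
    refine (sum_flatMap_le _ _ _ _ h1).trans ?_
    rw [← mul_assoc]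
    refine mul_le_mul_of_nonneg_right ?_ hx0
    have h5 : ((ch Mx j v).length : ℝ) ≤ (D : ℝ) ^ j := by exact_mod_cast length_ch hD j v
    calc ((ch Mx j v).length : ℝ) * (D : ℝ) ^ (2 * (t + 1) - 1 - j)
        ≤ (D : ℝ) ^ j * (D : ℝ) ^ (2 * (t + 1) - 1 - j) :=
          mul_le_mul_of_nonneg_right h5 (by positivity)
      _ = (D : ℝ) ^ (2 * (t + 1) - 1) := by rw [← pow_add]; congr 1; omega
      _ ≤ (D : ℝ) ^ (2 * (t + 1)) :=
          pow_le_pow_right₀ (by exact_mod_cast hD1) (by omega)
  refine (sum_flatMap_le _ _ _ _ hkey).trans ?_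
  rw [List.length_range]
  have h6 : (64 : ℝ) * (D : ℝ) ^ 2 * (1 / 2) ^ b ≤ 1 := by
    have h7 : (64 : ℝ) * (D : ℝ) ^ 2 ≤ 2 ^ b := by exact_mod_cast hb
    calc (64 : ℝ) * (D : ℝ) ^ 2 * (1 / 2) ^ b ≤ 2 ^ b * (1 / 2) ^ b :=
          mul_le_mul_of_nonneg_right h7 (by positivity)
      _ = 1 := by rw [← mul_pow]; norm_num
  have h8 : (D : ℝ) ^ 2 * (1 / 2) ^ b * 4 ≤ 1 / 16 := by linarith
  have h9 : (D : ℝ) ^ (2 * (t + 1)) * x ≤ 2 * (1 / 16) ^ (t + 1) := by
    have h10 : (D : ℝ) ^ (2 * (t + 1)) * x = 2 * ((D : ℝ) ^ 2 * (1 / 2) ^ b * 4) ^ (t + 1) := by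
      rw [hx, pow_mul, pow_mul, pow_mul (2 : ℝ) 2, mul_pow, mul_pow]
      norm_num
      ring
    rw [h10]
    refine mul_le_mul_of_nonneg_left ?_ (by norm_num)
    exact pow_le_pow_left₀ (by positivity) h8 _
  have h11 := four_mul_le t
  have h12 : ((2 * (t + 1) : ℕ) : ℝ) * (2 * (1 / 16) ^ (t + 1)) ≤ (1 / 2) ^ (t + 1) := by
    have h13 : ((1 : ℝ) / 16) ^ (t + 1) = (1 / 8) ^ (t + 1) * (1 / 2) ^ (t + 1) := by
      rw [← mul_pow]; norm_num
    rw [h13]
    push_cast
    have h14 : (4 : ℝ) * (t + 1) * (1 / 8) ^ (t + 1) ≤ 1 := by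
      calc (4 : ℝ) * (t + 1) * (1 / 8) ^ (t + 1) ≤ 8 ^ (t + 1) * (1 / 8) ^ (t + 1) :=
            mul_le_mul_of_nonneg_right h11 (by positivity)
        _ = 1 := by rw [← mul_pow]; norm_num
    have h15 : (0 : ℝ) ≤ (1 / 2) ^ (t + 1) := by positivity
    calc 2 * ((t : ℝ) + 1) * (2 * ((1 / 8) ^ (t + 1) * (1 / 2) ^ (t + 1)))
        = (4 * ((t : ℝ) + 1) * (1 / 8) ^ (t + 1)) * (1 / 2) ^ (t + 1) := by ring
      _ ≤ 1 * (1 / 2) ^ (t + 1) := mul_le_mul_of_nonneg_right h14 h15
      _ = (1 / 2) ^ (t + 1) := one_mul _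
  calc ((2 * (t + 1) : ℕ) : ℝ) * ((D : ℝ) ^ (2 * (t + 1)) * x)
      ≤ ((2 * (t + 1) : ℕ) : ℝ) * (2 * (1 / 16) ^ (t + 1)) :=
        mul_le_mul_of_nonneg_left h9 (by positivity)
    _ ≤ _ := h12

end Pool.Agent.N597.NR
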